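import Pool.Agent.H50.NS.Const

/-!
Algebraic identities of the normal form (all constants explicit in `ℚ(mu, lam)`).
-/

namespace Pool.Agent.H50.NS

noncomputable section

set_option linter.unusedSimpArgs false
set_option linter.unusedTactic false
set_option linter.style.longLine false

open Complex

/-- `1 / D`, where `D = 2 + mu * lam⁻³`. -/
def cE : ℂ := (23 - 4 * mu - 7 * lam + 6 * mu * lam) / 55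
def cEb : ℂ := (23 - 4 * mu - 7 * lamb + 6 * mu * lamb) / 55
def em : ℝ := (3 - mu) / 11
def s2 : ℂ := (2 * mu - mu * lam) / 11
def s2b : ℂ := (2 * mu - mu * lamb) / 11
def s0 : ℝ := (7 + 5 * mu) / 11
def p20 : ℂ := (-6 + 13 * mu + 9 * lam + 8 * mu * lam) / 55
def p11 : ℂ := (-17 - 9 * mu - 2 * lam - 14 * mu * lam) / 55
def p02 : ℂ := (-16 - 2 * mu + 24 * lam + 3 * mu * lam) / 55
def m30 : ℂ := (79 - 162 * mu + 41 * lam + 67 * mu * lam) / 605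
def m12 : ℂ := (10 - 95 * mu - 356 * lam + 38 * mu * lam) / 605
def m03 : ℂ := (186 + 92 * mu + 40 * lam + 60 * mu * lam) / 605
def m01 : ℂ := (-8 - mu + lam + 7 * mu * lam) / 55
def c1 : ℂ := (8 - 19 * mu - 7 * lam + 16 * mu * lam) / 55

lemma conj_lamb : (starRingEnd ℂ) lamb = lam := by
  rw [← conj_lam, Complex.conj_conj]

lemma conj_cE : (starRingEnd ℂ) cE = cEb := by
  simp only [cE, cEb, map_div₀, map_add, map_sub, map_mul, Complex.conj_ofReal, conj_lam,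
    map_ofNat]

lemma conj_s2 : (starRingEnd ℂ) s2 = s2b := by
  simp only [s2, s2b, map_div₀, map_add, map_sub, map_mul, Complex.conj_ofReal, conj_lam,
    map_ofNat]

lemma c1_re : c1.re = -(3 * mu / 22) := by
  have h := mu_sq
  simp only [c1, Complex.div_ofNat_re, Complex.add_re, Complex.sub_re, Complex.mul_re,
    Complex.mul_im, Complex.ofReal_re, Complex.ofReal_im, lam, Complex.re_ofNat, Complex.im_ofNat]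
  linear_combination (-8 / 55) * h

lemma cE_re : cE.re = (8 + mu) / 22 := by
  have h := mu_sq
  simp only [cE, Complex.div_ofNat_re, Complex.add_re, Complex.sub_re, Complex.mul_re,
    Complex.mul_im, Complex.ofReal_re, Complex.ofReal_im, lam, Complex.re_ofNat, Complex.im_ofNat]
  linear_combination (-3 / 55) * h

lemma c1_im : c1.im = sn * (16 * mu - 7) / 55 := by
  simp only [c1, Complex.div_ofNat_im, Complex.add_im, Complex.sub_im, Complex.mul_re,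
    Complex.mul_im, Complex.ofReal_re, Complex.ofReal_im, lam, Complex.re_ofNat, Complex.im_ofNat]
  ring

lemma cE_im : cE.im = sn * (6 * mu - 7) / 55 := by
  simp only [cE, Complex.div_ofNat_im, Complex.add_im, Complex.sub_im, Complex.mul_re,
    Complex.mul_im, Complex.ofReal_re, Complex.ofReal_im, lam, Complex.re_ofNat, Complex.im_ofNat]
  ring

/-- the square of the radius of the limit circle -/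
def rr : ℝ := (9 + 8 * mu) / 3

lemma re_zero : cE.re + c1.re * rr = 0 := by
  rw [cE_re, c1_re, rr]
  linear_combination (-4 / 11 : ℝ) * mu_sq

lemma im_pos : cE.im + c1.im * rr = sn * (2 * (2 - mu) / 15) := by
  rw [cE_im, c1_im, rr]
  linear_combination (sn * 128 / 165 : ℝ) * mu_sq

lemma id_e1 : cE + cEb + (em:ℂ) = 1 := by
  simp only [cE, cEb, em, s2, s2b, s0, p20, p11, p02, m30, m12, m03, m01, c1, lamb]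
  push_cast
  linear_combination (0) * lam_sq +
    ((-6/55)) * muC

lemma id_e2 : lamb * cE + lam * cEb + (em:ℂ) * (1 + mu) = 0 := by
  simp only [cE, cEb, em, s2, s2b, s0, p20, p11, p02, m30, m12, m03, m01, c1, lamb]
  push_cast
  linear_combination ((14/55) + (-12/55)*(mu:ℂ)) * lam_sq +
    ((-1/55)) * muC

lemma id_e3 : lamb ^ 2 * cE + lam ^ 2 * cEb + (em:ℂ) * (1 + mu) ^ 2 = 0 := by
  simp only [cE, cEb, em, s2, s2b, s0, p20, p11, p02, m30, m12, m03, m01, c1, lamb]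
  push_cast
  linear_combination ((46/55) + (-3/11)*(mu:ℂ) + (6/55)*(mu:ℂ)^2) * lam_sq +
    ((31/55) + (-9/55)*(mu:ℂ)) * muC

lemma id_e4 : cE * (1 + lam * lamb + mu * lamb * lamb ^ 2) = 1 := by
  simp only [cE, cEb, em, s2, s2b, s0, p20, p11, p02, m30, m12, m03, m01, c1, lamb]
  push_cast
  linear_combination ((-23/55) + (7/55)*lam + (-3/55)*(mu:ℂ) + (-29/55)*lam*(mu:ℂ) + (-8/11)*(mu:ℂ)^2 + (18/55)*lam*(mu:ℂ)^2 + (7/55)*lam^2*(mu:ℂ) + (3/11)*(mu:ℂ)^3 + (-12/55)*lam*(mu:ℂ)^3 + (-6/55)*lam^2*(mu:ℂ)^2 + (-6/55)*(mu:ℂ)^4) * lam_sq +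
    ((9/55) + (14/55)*lam + (2/11)*(mu:ℂ) + (-21/55)*lam*(mu:ℂ) + (-21/55)*(mu:ℂ)^2 + (4/55)*lam*(mu:ℂ)^2 + (4/55)*(mu:ℂ)^3) * muC

lemma id_e5 : 1 + lam * lam + mu * lamb * lam ^ 2 = 0 := by
  simp only [cE, cEb, em, s2, s2b, s0, p20, p11, p02, m30, m12, m03, m01, c1, lamb]
  push_cast
  linear_combination (1 + (-1)*lam*(mu:ℂ)) * lam_sq +
    (0) * muC

lemma id_e6 : 1 + lam * (1 + mu) + mu * lamb * (1 + (mu:ℂ)) ^ 2 = 0 := by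
  simp only [cE, cEb, em, s2, s2b, s0, p20, p11, p02, m30, m12, m03, m01, c1, lamb]
  push_cast
  linear_combination (0) * lam_sq +
    ((-1) + (-1)*lam + (-1)*(mu:ℂ) + (-1)*lam*(mu:ℂ) + (-1)*(mu:ℂ)^2) * muC

lemma id_sig (Z W : ℂ) : s2 * (lam * Z) ^ 2 + s2b * (lamb * W) ^ 2 + s0 * ((lam * Z) * (lamb * W)) =
    mu * (s2 * Z ^ 2 + s2b * W ^ 2 + s0 * (Z * W)) + em * (-((lam * Z + lamb * W) * (lamb * Z + lam * W))) := by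
  simp only [cE, cEb, em, s2, s2b, s0, p20, p11, p02, m30, m12, m03, m01, c1, lamb]
  push_cast
  linear_combination ((-1/11)*W*Z + (-3/11)*W^2 + (-3/11)*Z^2 + (-7/11)*W*Z*(mu:ℂ) + (3/11)*W^2*(mu:ℂ) + (3/11)*Z^2*(mu:ℂ) + (1/11)*W^2*lam*(mu:ℂ) + (2/11)*W^2*(mu:ℂ)^2 + (-1/11)*Z^2*lam*(mu:ℂ) + (1/11)*Z^2*(mu:ℂ)^2) * lam_sq +
    ((-1/11)*W*Z + (-3/11)*W^2 + (-3/11)*Z^2 + (-1/11)*W*Z*(mu:ℂ) + (1/11)*W^2*lam*(mu:ℂ) + (1/11)*W^2*(mu:ℂ)^2 + (-1/11)*Z^2*lam*(mu:ℂ)) * muC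

lemma id_P (Z W : ℂ) : cE * (-((lam * Z + lamb * W) * (lamb * Z + lam * W))) + (p20 * (lam * Z) ^ 2 + p11 * ((lam * Z) * (lamb * W)) +
    p02 * (lamb * W) ^ 2) = lam * (p20 * Z ^ 2 + p11 * (Z * W) + p02 * W ^ 2) := by
  simp only [cE, cEb, em, s2, s2b, s0, p20, p11, p02, m30, m12, m03, m01, c1, lamb]
  push_cast
  linear_combination ((-27/55)*W*Z + (-17/55)*W^2 + (8/55)*Z^2 + (16/55)*W*Z*lam + (31/55)*W*Z*(mu:ℂ) + (17/55)*W^2*lam + (3/11)*W^2*(mu:ℂ) + (2/55)*Z^2*lam + (-8/55)*Z^2*(mu:ℂ) + (2/55)*W*Z*lam*(mu:ℂ) + (9/55)*W^2*lam*(mu:ℂ) + (3/55)*W^2*(mu:ℂ)^2 + (14/55)*Z^2*lam*(mu:ℂ) + (-8/55)*Z^2*(mu:ℂ)^2) * lam_sq +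
    ((-27/55)*W*Z + (-17/55)*W^2 + (8/55)*Z^2 + (-1/55)*W*Z*lam + (4/55)*W*Z*(mu:ℂ) + (1/55)*W^2*lam + (-2/55)*W^2*(mu:ℂ) + (-4/55)*Z^2*lam + (-6/55)*W*Z*lam*(mu:ℂ) + (8/55)*Z^2*lam*(mu:ℂ)) * muC

lemma id_M (Z W : ℂ) : cE * ((lam * Z + lamb * W) - (1 + mu) * (lam * Z + lamb * W) * (s2 * Z ^ 2 + s2b * W ^ 2 + s0 * (Z * W)) -
      mu * (s2 * Z ^ 2 + s2b * W ^ 2 + s0 * (Z * W)) * (lamb * Z + lam * W) - (-((lam * Z + lamb * W) * (lamb * Z + lam * W))) * (lamb * Z + lam * W)) +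
      (-((lam * Z + lamb * W) * (lamb * Z + lam * W))) * (2 * p20 * lam * Z * cE + p11 * (lam * Z * cEb + lamb * W * cE) +
        2 * p02 * lamb * W * cEb) +
      (m30 * (lam * Z) ^ 3 + m12 * ((lam * Z) * (lamb * W) ^ 2) + m03 * (lamb * W) ^ 3 +
        m01 * (lamb * W)) =
    lam * (m30 * Z ^ 3 + m12 * (Z * W ^ 2) + m03 * W ^ 3 + m01 * W) +
      lam * Z * (cE + c1 * (Z * W)) := by
  simp only [cE, cEb, em, s2, s2b, s0, p20, p11, p02, m30, m12, m03, m01, c1, lamb]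
  push_cast
  linear_combination ((1/11)*W + (-4/11)*W*(mu:ℂ) + (1094/3025)*W*Z^2 + (2231/3025)*W^2*Z + (568/3025)*W^3 + (-358/3025)*Z^3 + (-1264/3025)*W*Z^2*lam + (-1634/3025)*W*Z^2*(mu:ℂ) + (364/3025)*W^2*Z*lam + (-218/275)*W^2*Z*(mu:ℂ) + (-718/3025)*W^3*lam + (-53/605)*W^3*(mu:ℂ) + (103/275)*Z^3*lam + (162/3025)*Z^3*(mu:ℂ) + (-277/3025)*W*Z^2*lam*(mu:ℂ) + (-464/3025)*W*Z^2*lam^2 + (917/3025)*W*Z^2*(mu:ℂ)^2 + (-243/605)*W^2*Z*lam*(mu:ℂ) + (-696/3025)*W^2*Z*lam^2 + (-389/3025)*W^2*Z*(mu:ℂ)^2 + (-1461/3025)*W^3*lam*(mu:ℂ) + (-768/3025)*W^3*lam^2 + (-1032/3025)*W^3*(mu:ℂ)^2 + (-107/275)*Z^3*lam*(mu:ℂ) + (153/3025)*Z^3*lam^2 + (544/3025)*Z^3*(mu:ℂ)^2 + (-51/275)*W*Z^2*lam*(mu:ℂ)^2 + (-939/3025)*W*Z^2*lam^2*(mu:ℂ) + (-14/605)*W*Z^2*lam^3 + (-632/3025)*W*Z^2*(mu:ℂ)^3 + (1489/3025)*W^2*Z*lam*(mu:ℂ)^2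 + (1819/3025)*W^2*Z*lam^2*(mu:ℂ) + (112/605)*W^2*Z*lam^3 + (988/3025)*W^2*Z*(mu:ℂ)^3 + (-999/3025)*W^3*lam*(mu:ℂ)^2 + (-1073/3025)*W^3*lam^2*(mu:ℂ) + (-14/121)*W^3*lam^3 + (-557/3025)*W^3*(mu:ℂ)^3 + (-184/3025)*Z^3*lam*(mu:ℂ)^2 + (38/275)*Z^3*lam^2*(mu:ℂ) + (-28/605)*Z^3*lam^3 + (436/3025)*Z^3*(mu:ℂ)^3 + (202/3025)*W*Z^2*lam*(mu:ℂ)^3 + (172/3025)*W*Z^2*lam^2*(mu:ℂ)^2 + (68/605)*W*Z^2*lam^3*(mu:ℂ) + (-52/605)*W*Z^2*(mu:ℂ)^4 + (-546/3025)*W^2*Z*lam*(mu:ℂ)^3 + (-692/3025)*W^2*Z*lam^2*(mu:ℂ)^2 + (-82/605)*W^2*Z*lam^3*(mu:ℂ) + (-166/3025)*W^2*Z*(mu:ℂ)^4 + (4/55)*W^3*lam*(mu:ℂ)^3 + (404/3025)*W^3*lam^2*(mu:ℂ)^2 + (32/605)*W^3*lam^3*(mu:ℂ) + (6/3025)*W^3*(mu:ℂ)^4 + (54/3025)*Z^3*lam*(mu:ℂ)^3 + (116/3025)*Z^3*lam^2*(mu:ℂ)^2 + (-18/605)*Z^3*lam^3*(mu:ℂ) + (-6/605)*Z^3*(mu:ℂ)^4 + (-144/3025)*W*Z^2*lam*(mu:ℂ)^4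 + (-12/3025)*W*Z^2*lam^2*(mu:ℂ)^3 + (-48/605)*W*Z^2*lam^3*(mu:ℂ)^2 + (96/3025)*W*Z^2*(mu:ℂ)^5 + (-192/3025)*W^2*Z*lam*(mu:ℂ)^4 + (-228/3025)*W^2*Z*lam^2*(mu:ℂ)^3 + (-12/605)*W^2*Z*lam^3*(mu:ℂ)^2 + (-36/3025)*W^2*Z*(mu:ℂ)^5 + (36/3025)*W^3*lam*(mu:ℂ)^4 + (156/3025)*W^3*lam^2*(mu:ℂ)^3 + (24/605)*W^3*lam^3*(mu:ℂ)^2 + (84/3025)*Z^3*lam^2*(mu:ℂ)^3 + (36/605)*Z^3*lam^3*(mu:ℂ)^2) * lam_sq +
    ((1/11)*W + (7/55)*W*lam + (1094/3025)*W*Z^2 + (2231/3025)*W^2*Z + (568/3025)*W^3 + (-358/3025)*Z^3 + (-19/3025)*W*Z^2*lam + (-108/605)*W*Z^2*(mu:ℂ) + (-391/3025)*W^2*Z*lam + (-972/3025)*W^2*Z*(mu:ℂ) + (212/3025)*W^3*lam + (303/3025)*W^3*(mu:ℂ) + (1528/3025)*Z^3*lam + (-196/3025)*Z^3*(mu:ℂ) + (-42/3025)*W*Z^2*lam*(mu:ℂ) + (436/3025)*W*Z^2*(mu:ℂ)^2 + (38/605)*W^2*Z*lam*(mu:ℂ) + (-74/605)*W^2*Z*(mu:ℂ)^2 + (-41/275)*W^3*lam*(mu:ℂ)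 + (-391/3025)*W^3*(mu:ℂ)^2 + (-587/3025)*Z^3*lam*(mu:ℂ) + (-2/605)*Z^3*(mu:ℂ)^2 + (23/605)*W*Z^2*lam*(mu:ℂ)^2 + (-96/3025)*W*Z^2*(mu:ℂ)^3 + (76/3025)*W^2*Z*lam*(mu:ℂ)^2 + (208/3025)*W^2*Z*(mu:ℂ)^3 + (8/605)*W^3*lam*(mu:ℂ)^2 + (-4/605)*W^3*(mu:ℂ)^3 + (-386/3025)*Z^3*lam*(mu:ℂ)^2 + (278/3025)*W*Z^2*lam*(mu:ℂ)^3 + (24/3025)*W^2*Z*lam*(mu:ℂ)^3 + (24/3025)*W^2*Z*(mu:ℂ)^4 + (6/605)*Z^3*lam*(mu:ℂ)^3 + (-96/3025)*W*Z^2*lam*(mu:ℂ)^4) * muC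

end

end Pool.Agent.H50.NS
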