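import Mathlib

/-!
A small calculus of functions which are bounded, continuous, and Lipschitz in the state
`(Z, T)` uniformly in the parameter `δ`.
-/

namespace Pool.Agent.H50.NS

noncomputable section

open Complex

/-- points `(δ, (Z, T))` -/
abbrev Pt := ℝ × (ℂ × ℝ)

/-- distance of the state parts -/
def dst (p q : Pt) : ℝ := ‖p.2.1 - q.2.1‖ + |p.2.2 - q.2.2|

lemma dst_nonneg (p q : Pt) : 0 ≤ dst p q := by unfold dst; positivity

/-- continuous, bounded and Lipschitz in the state on `S` -/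
structure BL (S : Set Pt) (f : Pt → ℂ) : Prop where
  cont : ContinuousOn f S
  bd : ∃ C : ℝ, 0 ≤ C ∧ ∀ p ∈ S, ‖f p‖ ≤ C
  lip : ∃ C : ℝ, 0 ≤ C ∧ ∀ p ∈ S, ∀ q ∈ S, p.1 = q.1 → ‖f p - f q‖ ≤ C * dst p q

lemma BL.mono {S S' : Set Pt} {f : Pt → ℂ} (h : BL S f) (hs : S' ⊆ S) : BL S' f := by
  obtain ⟨C, hC, h1⟩ := h.bd
  obtain ⟨D, hD, h2⟩ := h.lip
  exact ⟨h.cont.mono hs, ⟨C, hC, fun p hp => h1 p (hs hp)⟩,
    ⟨D, hD, fun p hp q hq => h2 p (hs hp) q (hs hq)⟩⟩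

lemma BL.const {S : Set Pt} (c : ℂ) : BL S (fun _ => c) := by
  refine ⟨continuousOn_const, ⟨‖c‖, norm_nonneg _, fun p _ => le_rfl⟩,
    ⟨0, le_rfl, fun p _ q _ _ => by simp⟩⟩

lemma BL.add {S : Set Pt} {f g : Pt → ℂ} (hf : BL S f) (hg : BL S g) :
    BL S (fun p => f p + g p) := by
  obtain ⟨C, hC, h1⟩ := hf.bd
  obtain ⟨D, hD, h2⟩ := hf.lip
  obtain ⟨C', hC', h1'⟩ := hg.bd
  obtain ⟨D', hD', h2'⟩ := hg.lip
  refine ⟨hf.cont.add hg.cont, ⟨C + C', by positivity, fun p hp => ?_⟩,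
    ⟨D + D', by positivity, fun p hp q hq he => ?_⟩⟩
  · exact (norm_add_le _ _).trans (add_le_add (h1 p hp) (h1' p hp))
  · have : f p + g p - (f q + g q) = (f p - f q) + (g p - g q) := by ring
    rw [this, add_mul]
    exact (norm_add_le _ _).trans (add_le_add (h2 p hp q hq he) (h2' p hp q hq he))

lemma BL.neg {S : Set Pt} {f : Pt → ℂ} (hf : BL S f) : BL S (fun p => - f p) := by
  obtain ⟨C, hC, h1⟩ := hf.bd
  obtain ⟨D, hD, h2⟩ := hf.lip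
  refine ⟨hf.cont.neg, ⟨C, hC, fun p hp => ?_⟩, ⟨D, hD, fun p hp q hq he => ?_⟩⟩
  · rw [norm_neg]; exact h1 p hp
  · have : - f p - - f q = - (f p - f q) := by ring
    rw [this, norm_neg]; exact h2 p hp q hq he

lemma BL.sub {S : Set Pt} {f g : Pt → ℂ} (hf : BL S f) (hg : BL S g) :
    BL S (fun p => f p - g p) := by
  have := hf.add hg.neg
  simpa only [sub_eq_add_neg] using this

lemma BL.mul {S : Set Pt} {f g : Pt → ℂ} (hf : BL S f) (hg : BL S g) :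
    BL S (fun p => f p * g p) := by
  obtain ⟨C, hC, h1⟩ := hf.bd
  obtain ⟨D, hD, h2⟩ := hf.lip
  obtain ⟨C', hC', h1'⟩ := hg.bd
  obtain ⟨D', hD', h2'⟩ := hg.lip
  refine ⟨hf.cont.mul hg.cont, ⟨C * C', by positivity, fun p hp => ?_⟩,
    ⟨C * D' + D * C', by positivity, fun p hp q hq he => ?_⟩⟩
  · rw [norm_mul]
    exact mul_le_mul (h1 p hp) (h1' p hp) (norm_nonneg _) hC
  · have : f p * g p - f q * g q = f p * (g p - g q) + (f p - f q) * g q := by ring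
    rw [this]
    refine (norm_add_le _ _).trans ?_
    rw [norm_mul, norm_mul]
    have e1 : ‖f p‖ * ‖g p - g q‖ ≤ C * (D' * dst p q) :=
      mul_le_mul (h1 p hp) (h2' p hp q hq he) (norm_nonneg _) hC
    have e2 : ‖f p - f q‖ * ‖g q‖ ≤ (D * dst p q) * C' :=
      mul_le_mul (h2 p hp q hq he) (h1' q hq) (norm_nonneg _)
        (mul_nonneg hD (dst_nonneg _ _))
    linarith

lemma BL.pow {S : Set Pt} {f : Pt → ℂ} (hf : BL S f) (n : ℕ) :
    BL S (fun p => f p ^ n) := by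
  induction n with
  | zero => simpa using BL.const (S := S) 1
  | succ n ih => simpa only [pow_succ] using ih.mul hf

lemma BL.conj {S : Set Pt} {f : Pt → ℂ} (hf : BL S f) :
    BL S (fun p => (starRingEnd ℂ) (f p)) := by
  obtain ⟨C, hC, h1⟩ := hf.bd
  obtain ⟨D, hD, h2⟩ := hf.lip
  refine ⟨Complex.continuous_conj.comp_continuousOn hf.cont, ⟨C, hC, fun p hp => ?_⟩,
    ⟨D, hD, fun p hp q hq he => ?_⟩⟩
  · rw [RCLike.norm_conj]; exact h1 p hp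
  · rw [← map_sub, RCLike.norm_conj]; exact h2 p hp q hq he

lemma BL.inv {S : Set Pt} {f : Pt → ℂ} (hf : BL S f) {c : ℝ} (hc : 0 < c)
    (hb : ∀ p ∈ S, c ≤ ‖f p‖) : BL S (fun p => (f p)⁻¹) := by
  obtain ⟨D, hD, h2⟩ := hf.lip
  have hne : ∀ p ∈ S, f p ≠ 0 := fun p hp h => by
    have := hb p hp
    rw [h, norm_zero] at this
    linarith
  have hib : ∀ p ∈ S, ‖(f p)⁻¹‖ ≤ c⁻¹ := fun p hp => by
    rw [norm_inv]
    exact inv_anti₀ hc (hb p hp)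
  refine ⟨hf.cont.inv₀ hne, ⟨c⁻¹, by positivity, hib⟩,
    ⟨c⁻¹ * D * c⁻¹, by positivity, fun p hp q hq he => ?_⟩⟩
  have : (f p)⁻¹ - (f q)⁻¹ = - ((f p)⁻¹ * (f p - f q) * (f q)⁻¹) := by
    have h3 := hne p hp
    have h4 := hne q hq
    field_simp
    ring
  rw [this, norm_neg, norm_mul, norm_mul]
  have e1 : ‖(f p)⁻¹‖ * ‖f p - f q‖ ≤ c⁻¹ * (D * dst p q) :=
    mul_le_mul (hib p hp) (h2 p hp q hq he) (norm_nonneg _) (by positivity)
  have e2 : ‖(f p)⁻¹‖ * ‖f p - f q‖ * ‖(f q)⁻¹‖ ≤ c⁻¹ * (D * dst p q) * c⁻¹ :=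
    mul_le_mul e1 (hib q hq) (norm_nonneg _)
      (mul_nonneg (by positivity) (mul_nonneg hD (dst_nonneg _ _)))
  linarith

lemma BL.div {S : Set Pt} {f g : Pt → ℂ} (hf : BL S f) (hg : BL S g) {c : ℝ} (hc : 0 < c)
    (hb : ∀ p ∈ S, c ≤ ‖g p‖) : BL S (fun p => f p / g p) := by
  simpa only [div_eq_mul_inv] using hf.mul (hg.inv hc hb)

lemma BL.re {S : Set Pt} {f : Pt → ℂ} (hf : BL S f) :
    BL S (fun p => ((f p).re : ℂ)) := by
  obtain ⟨C, hC, h1⟩ := hf.bd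
  obtain ⟨D, hD, h2⟩ := hf.lip
  refine ⟨?_, ⟨C, hC, fun p hp => ?_⟩, ⟨D, hD, fun p hp q hq he => ?_⟩⟩
  · exact (Complex.continuous_ofReal.comp Complex.continuous_re).comp_continuousOn hf.cont
  · rw [Complex.norm_real]
    exact (Complex.abs_re_le_norm _).trans (h1 p hp)
  · rw [← Complex.ofReal_sub, ← Complex.sub_re, Complex.norm_real]
    exact (Complex.abs_re_le_norm _).trans (h2 p hp q hq he)

/-- polynomial domain: `0 < δ ≤ 1`, `‖Z‖ ≤ 4`, `|T| ≤ M` -/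
def Bx (M : ℝ) : Set Pt := {p | 0 < p.1 ∧ p.1 ≤ 1 ∧ ‖p.2.1‖ ≤ 4 ∧ |p.2.2| ≤ M}

lemma BL.del {M : ℝ} : BL (Bx M) (fun p => (p.1 : ℂ)) := by
  refine ⟨(Complex.continuous_ofReal.comp continuous_fst).continuousOn,
    ⟨1, zero_le_one, fun p hp => ?_⟩, ⟨0, le_rfl, fun p _ q _ he => by simp [he]⟩⟩
  rw [Complex.norm_real, Real.norm_eq_abs, abs_of_pos hp.1]
  exact hp.2.1

lemma BL.Z {M : ℝ} : BL (Bx M) (fun p => p.2.1) := by
  refine ⟨(continuous_fst.comp continuous_snd).continuousOn,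
    ⟨4, by norm_num, fun p hp => hp.2.2.1⟩, ⟨1, zero_le_one, fun p _ q _ _ => ?_⟩⟩
  unfold dst
  have := abs_nonneg (p.2.2 - q.2.2)
  linarith

lemma BL.W {M : ℝ} : BL (Bx M) (fun p => (starRingEnd ℂ) p.2.1) := BL.Z.conj

lemma BL.T {M : ℝ} (hM : 0 ≤ M) : BL (Bx M) (fun p => (p.2.2 : ℂ)) := by
  refine ⟨((Complex.continuous_ofReal.comp continuous_snd).comp continuous_snd).continuousOn,
    ⟨M, hM, fun p hp => ?_⟩, ⟨1, zero_le_one, fun p _ q _ _ => ?_⟩⟩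
  · rw [Complex.norm_real]; exact hp.2.2.2
  · unfold dst
    rw [← Complex.ofReal_sub, Complex.norm_real, Real.norm_eq_abs]
    have := norm_nonneg (p.2.1 - q.2.1)
    linarith

end

end Pool.Agent.H50.NS
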