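import Mathlib

/-!
Constants for the Neimark-Sacker analysis of `x_{n+1} = γ + x_{n-2}/x_{n-1}` at
`γ = (√5 - 1)/2`.  All constants lie in `ℚ(mu, lam)` with `mu ^ 2 = 1 - mu` and
`lam ^ 2 = - mu * lam - 1`.
-/

namespace Pool.Agent.H50.NS

noncomputable section

open Complex

/-- `mu = (√5 - 1)/2`. -/
def mu : ℝ := (√5 - 1) / 2

lemma mu_sq : mu ^ 2 = 1 - mu := by
  unfold mu
  have h : (√5) ^ 2 = 5 := Real.sq_sqrt (by norm_num)
  linear_combination (1 / 4) * h

lemma mu_gt : 0.618 < mu := by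
  unfold mu
  have h : (2.236 : ℝ) < √5 := by
    rw [Real.lt_sqrt (by norm_num)]; norm_num
  linarith

lemma mu_lt : mu < 0.6181 := by
  unfold mu
  have h : √5 < (2.2362 : ℝ) := by
    rw [Real.sqrt_lt' (by norm_num)]; norm_num
  linarith

lemma mu_pos : 0 < mu := lt_trans (by norm_num) mu_gt

lemma mu_ne : mu ≠ 0 := mu_pos.ne'

/-- `1 / mu = 1 + mu`. -/
lemma inv_mu : mu⁻¹ = 1 + mu := by
  rw [inv_eq_one_div, div_eq_iff mu_ne]
  linear_combination -mu_sq

/-- the imaginary part of `lam`. -/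
def sn : ℝ := √((3 + mu) / 4)

lemma sn_sq : sn ^ 2 = (3 + mu) / 4 :=
  Real.sq_sqrt (by have := mu_pos; linarith)

lemma sn_pos : 0 < sn := Real.sqrt_pos.mpr (by have := mu_pos; linarith)

/-- `lam = exp (3 π i / 5)`. -/
def lam : ℂ := ⟨-mu / 2, sn⟩

/-- the conjugate of `lam`. -/
def lamb : ℂ := -(mu : ℂ) - lam

lemma muC : (mu : ℂ) ^ 2 = 1 - mu := by
  exact_mod_cast congrArg (fun x : ℝ => (x : ℂ)) mu_sq

lemma lam_sq : lam ^ 2 = -(mu : ℂ) * lam - 1 := by
  have h1 := mu_sq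
  have h2 := sn_sq
  apply Complex.ext
  · simp only [lam, pow_two, Complex.mul_re, Complex.sub_re, Complex.neg_re, Complex.ofReal_re,
      Complex.neg_im, Complex.ofReal_im, Complex.one_re]
    nlinarith
  · simp only [lam, pow_two, Complex.mul_im, Complex.sub_im, Complex.neg_re, Complex.ofReal_re,
      Complex.neg_im, Complex.ofReal_im, Complex.one_im]
    ring

lemma conj_lam : (starRingEnd ℂ) lam = lamb := by
  apply Complex.ext
  · simp [lam, lamb]; ring
  · simp [lam, lamb]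

lemma lam_mul_lamb : lam * lamb = 1 := by
  unfold lamb
  linear_combination -lam_sq

lemma lam_cube : lam ^ 3 = -(mu : ℂ) * lam + mu := by
  linear_combination (lam - mu) * lam_sq + lam * muC

lemma lam_pow_five : lam ^ 5 = -1 := by
  have h : lam ^ 5 = lam ^ 2 * lam ^ 3 := by ring
  rw [h, lam_cube, lam_sq]
  linear_combination (mu ^ 2) * lam_sq - (mu * lam + 1) * muC

end

end Pool.Agent.H50.NS
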