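import Pool.Agent.H50.NS.Est

/-!
The invariant cone order on lifted states and the rotation number.
-/

namespace Pool.Agent.H50.NS

noncomputable section

open Complex Filter Topology

/-- the cone order on lifted states -/
def Cn (K : ℝ) (X : ℂ × ℝ) (η : ℂ) (X' : ℂ × ℝ) (η' : ℂ) : Prop :=
  |(η' - η).re| ≤ 1 / 4 * (η' - η).im ∧ |X'.2 - X.2| ≤ 50 * K * (η' - η).im

section

variable {M K d : ℝ} (B : Bds M K) (hd : 0 < d) (hdK : d * K ^ 2 ≤ 1 / 10000)

include B hd hdK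

lemma hdK1 : d * K ≤ 1 / 100 := by
  have := B.K1
  have h2 : 0 ≤ d * K * (K - 1) := mul_nonneg (mul_nonneg hd.le (by linarith)) (by linarith)
  nlinarith

lemma hd1 : d ≤ 1 / 10000 := by
  have := B.K1
  have h2 : 0 ≤ d * ((K - 1) * (K + 1)) :=
    mul_nonneg hd.le (mul_nonneg (by linarith) (by linarith))
  nlinarith

omit B hd hdK in
/-- auxiliary inequality for the real part -/
lemma cone_re {x c t D m : ℝ} (hc1 : 8 ≤ c) (hc2 : c ≤ 11) (hx : |x| ≤ 1 / 4 * t)
    (hd2 : 0 ≤ d ^ 2) (hd2s : d ^ 2 ≤ 1 / 10000) (hD : |D| ≤ 0.06 * (d ^ 2 * t))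
    (hm1 : 0.084 ≤ m) (hm2 : m ≤ 0.085) :
    |x + d ^ 2 * (c * x) * -m + D| ≤ 1 / 4 * t - 0.1 * (d ^ 2 * t) := by
  have e0 : x + d ^ 2 * (c * x) * -m + D = (1 - m * c * d ^ 2) * x + D := by ring
  rw [e0]
  refine (abs_add_le _ _).trans ?_
  have hb3 : 0.67 ≤ m * c := by nlinarith
  have hb4 : m * c ≤ 1 := by nlinarith
  have h13 : 0 ≤ 1 - m * c * d ^ 2 := by nlinarith
  rw [abs_mul, abs_of_nonneg h13]
  have h14 : (1 - m * c * d ^ 2) * |x| ≤ (1 - 0.67 * d ^ 2) * (1 / 4 * t) := by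
    have : 1 - m * c * d ^ 2 ≤ 1 - 0.67 * d ^ 2 := by nlinarith
    exact mul_le_mul this hx (abs_nonneg _) (by linarith)
  have ht : 0 ≤ t := by linarith [abs_nonneg x]
  have h15 : 0 ≤ d ^ 2 * t := mul_nonneg hd2 ht
  linarith

omit B hd hdK in
/-- auxiliary inequality for the imaginary part -/
lemma cone_im {x c t D m : ℝ} (hc1 : 8 ≤ c) (hc2 : c ≤ 11) (hx : |x| ≤ 1 / 4 * t)
    (hd2 : 0 ≤ d ^ 2) (hD : |D| ≤ 0.06 * (d ^ 2 * t))
    (hm1 : 0 ≤ m) (hm2 : m ≤ 0.06) :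
    t + d ^ 2 * (c * x) * m + D ≥ t - 0.225 * (d ^ 2 * t) := by
  have e1 : |c * x * m| ≤ 0.165 * t := by
    rw [abs_mul, abs_mul, abs_of_nonneg hm1, abs_of_pos (by linarith : (0 : ℝ) < c)]
    have e3 : c * |x| ≤ 11 * (1 / 4 * t) := mul_le_mul hc2 hx (abs_nonneg _) (by norm_num)
    have e4 : 0 ≤ c * |x| := mul_nonneg (by linarith) (abs_nonneg _)
    have e5 : c * |x| * m ≤ 11 * (1 / 4 * t) * 0.06 := mul_le_mul e3 hm2 hm1 (e4.trans e3)
    linarith
  have e5 := (abs_le.mp e1).1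
  have e6 := mul_le_mul_of_nonneg_left e5 hd2
  have e7 := (abs_le.mp hD).1
  have e8 : d ^ 2 * (c * x) * m = d ^ 2 * (c * x * m) := by ring
  rw [e8]
  linarith

omit B hd hdK in
/-- auxiliary inequality for `T` -/
lemma cone_T {t a n A : ℝ} (hK : 1 ≤ K) (ht : 0 ≤ t) (ha0 : 0 ≤ a)
    (ha : a ≤ 50 * K * t) (hn : n ≤ 5 / 4 * t) (hd0 : 0 ≤ d) (hdK : d * K ^ 2 ≤ 1 / 10000)
    (hd2s : d ^ 2 ≤ 1 / 10000)
    (hA : A ≥ t - 0.225 * (d ^ 2 * t)) :
    mu * a + 10 * K * n + 10 * K * d * a ≤ 50 * K * A := by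
  have h7 := mu_lt
  have e1 : mu * a ≤ 0.6181 * (50 * K * t) := mul_le_mul h7.le ha ha0 (by norm_num)
  have e2 : 10 * K * n ≤ 10 * K * (5 / 4 * t) := mul_le_mul_of_nonneg_left hn (by linarith)
  have e3 : 10 * K * d * a ≤ 10 * K * d * (50 * K * t) :=
    mul_le_mul_of_nonneg_left ha (mul_nonneg (by linarith) hd0)
  have e4 : 10 * K * d * (50 * K * t) = 500 * (d * K ^ 2) * t := by ring
  have e5 : 500 * (d * K ^ 2) * t ≤ 0.05 * t := mul_le_mul_of_nonneg_right (by linarith) ht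
  have e6 : 50 * K * (t - 0.225 * (d ^ 2 * t)) ≤ 50 * K * A :=
    mul_le_mul_of_nonneg_left hA (by linarith)
  have e7 : d ^ 2 * t ≤ 1 / 10000 * t := mul_le_mul_of_nonneg_right hd2s ht
  have e9 : K * (d ^ 2 * t) ≤ K * (1 / 10000 * t) := mul_le_mul_of_nonneg_left e7 (by linarith)
  have e10 : 0 ≤ (K - 1) * t := mul_nonneg (by linarith) ht
  nlinarith

lemma cone_step {X X' : ℂ × ℝ} {η η' : ℂ} (h : Rg M d X η) (h' : Rg M d X' η')
    (hc : Cn K X η X' η') :
    Cn K (stp d X) (η + om * I + Lg d X) (stp d X') (η' + om * I + Lg d X') := by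
  obtain ⟨h1, h2⟩ := hc
  have hK := B.K1
  have hk1 := hdK1 B hd hdK
  have hd1 := hd1 B hd hdK
  have hL := Lg_diff B hd hk1 h' h
  have hT := T_diff B hd hk1 h' h
  obtain ⟨c, hc1, hc2, hc3⟩ := exp_slope h'.r h.r
  set Δ := η' - η with hΔ
  set θ := Δ.im with hθ
  have hθ0 : 0 ≤ θ := by
    have := abs_nonneg Δ.re
    linarith
  have hre : η'.re - η.re = Δ.re := by rw [hΔ, Complex.sub_re]
  have hnorm : ‖Δ‖ ≤ 5 / 4 * θ := by
    have := Complex.norm_le_abs_re_add_abs_im Δ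
    rw [← hθ, abs_of_nonneg hθ0] at this
    linarith
  have hsum : ‖Δ‖ + |X'.2 - X.2| ≤ 52 * K * θ := by
    have : 0 ≤ (K - 1) * θ := mul_nonneg (by linarith) hθ0
    linarith
  have hd2 : 0 < d ^ 2 := by positivity
  have hbig : 10 * K * d ^ 3 * (‖Δ‖ + |X'.2 - X.2|) ≤ 0.06 * (d ^ 2 * θ) := by
    have e1 : 10 * K * d ^ 3 * (‖Δ‖ + |X'.2 - X.2|) ≤ 10 * K * d ^ 3 * (52 * K * θ) :=
      mul_le_mul_of_nonneg_left hsum (by positivity)
    have e2 : 10 * K * d ^ 3 * (52 * K * θ) = 520 * (d * K ^ 2) * (d ^ 2 * θ) := by ring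
    have e3 : 0 ≤ d ^ 2 * θ := by positivity
    rw [e2] at e1
    have e4 : 520 * (d * K ^ 2) * (d ^ 2 * θ) ≤ 0.06 * (d ^ 2 * θ) :=
      mul_le_mul_of_nonneg_right (by linarith) e3
    linarith
  have hL' := hL.trans hbig
  set D := Lg d X' - Lg d X - (d ^ 2 * c1 * (Real.exp (2 * η'.re) - Real.exp (2 * η.re)) : ℂ)
    with hD
  have hDr := (Complex.abs_re_le_norm D).trans hL'
  have hDi := (Complex.abs_im_le_norm D).trans hL'
  have hdecomp : (η' + om * I + Lg d X') - (η + om * I + Lg d X) =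
      Δ + ((d ^ 2 * (c * Δ.re) : ℝ) : ℂ) * c1 + D := by
    have e0 : ((c * Δ.re : ℝ) : ℂ) = ((Real.exp (2 * η'.re) - Real.exp (2 * η.re) : ℝ) : ℂ) := by
      rw [hc3, hre]
    have e1 : ((d ^ 2 * (c * Δ.re) : ℝ) : ℂ) * c1 =
      (d ^ 2 * c1 * (Real.exp (2 * η'.re) - Real.exp (2 * η.re)) : ℂ) := by
      rw [Complex.ofReal_mul, e0]
      push_cast
      ring
    rw [e1, hD, hΔ]
    ring
  have h6 := mu_gt
  have h7 := mu_lt
  have him0 : 0 ≤ c1.im := by
    rw [c1_im]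
    have : 0 ≤ 16 * mu - 7 := by linarith
    have := sn_pos
    positivity
  have him : c1.im ≤ 0.06 := by
    rw [c1_im]
    have hs2 := sn_lt
    have e0 : 0 ≤ 16 * mu - 7 := by linarith
    have e1 : 16 * mu - 7 ≤ 3 := by linarith
    have e2 : sn * (16 * mu - 7) ≤ 0.96 * 3 := mul_le_mul hs2.le e1 e0 (by norm_num)
    linarith
  have hd2s : d ^ 2 ≤ 1 / 10000 := by nlinarith
  have hIm : (Δ + ((d ^ 2 * (c * Δ.re) : ℝ) : ℂ) * c1 + D).im ≥ θ - 0.225 * (d ^ 2 * θ) := by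
    rw [Complex.add_im, Complex.add_im, Complex.im_ofReal_mul]
    exact cone_im hc1 hc2 h1 hd2.le hDi him0 him
  have hRe : |(Δ + ((d ^ 2 * (c * Δ.re) : ℝ) : ℂ) * c1 + D).re| ≤
      1 / 4 * θ - 0.1 * (d ^ 2 * θ) := by
    rw [Complex.add_re, Complex.add_re, Complex.re_ofReal_mul, c1_re]
    exact cone_re hc1 hc2 h1 hd2.le hd2s hDr (by linarith) (by linarith)
  have hdt : 0 ≤ d ^ 2 * θ := by positivity
  constructor
  · rw [hdecomp]
    refine hRe.trans ?_
    linarith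
  · rw [hdecomp]
    exact hT.trans (cone_T hK hθ0 (abs_nonneg _) h2 hnorm hd.le hdK hd2s hIm)

/-- orbit of the state -/
def orb (d : ℝ) (X : ℂ × ℝ) (n : ℕ) : ℂ × ℝ := (stp d)^[n] X

/-- accumulated increment of the angle -/
def Th (d : ℝ) (X : ℂ × ℝ) (n : ℕ) : ℝ := birkhoffSum (stp d) (fun Y => (Lg d Y).im) n X

/-- lift of the orbit -/
def eta (d : ℝ) (X : ℂ × ℝ) (η : ℂ) : ℕ → ℂ
  | 0 => η
  | n + 1 => eta d X η n + om * I + Lg d (orb d X n)

omit B hd hdK in
lemma orb_succ (d : ℝ) (X : ℂ × ℝ) (n : ℕ) : orb d X (n + 1) = stp d (orb d X n) := by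
  simp only [orb, Function.iterate_succ_apply']

omit B hd hdK in
lemma Th_succ (d : ℝ) (X : ℂ × ℝ) (n : ℕ) :
    Th d X (n + 1) = Th d X n + (Lg d (orb d X n)).im := by
  simp only [Th, birkhoffSum, Finset.sum_range_succ, orb]

omit B hd hdK in
lemma eta_im (d : ℝ) (X : ℂ × ℝ) (η : ℂ) (n : ℕ) :
    (eta d X η n).im = η.im + n * om + Th d X n := by
  induction n with
  | zero => simp [eta, Th]
  | succ n ih =>
    simp only [eta, Complex.add_im, ih, Th_succ]
    have : ((om : ℂ) * I).im = om := by simp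
    rw [this]
    push_cast
    ring

lemma Rg.orb {X : ℂ × ℝ} {η : ℂ} (h : Rg M d X η) (n : ℕ) :
    Rg M d (NS.orb d X n) (eta d X η n) := by
  induction n with
  | zero => exact h
  | succ n ih =>
    rw [orb_succ]
    exact Rg.step B hd (hdK1 B hd hdK) ih

lemma Cn.orb {X X' : ℂ × ℝ} {η η' : ℂ} (h : Rg M d X η) (h' : Rg M d X' η')
    (hc : Cn K X η X' η') (n : ℕ) :
    Cn K (NS.orb d X n) (eta d X η n) (NS.orb d X' n) (eta d X' η' n) := by
  induction n with
  | zero => exact hc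
  | succ n ih =>
    rw [orb_succ, orb_succ]
    exact cone_step B hd hdK (Rg.orb B hd hdK h n) (Rg.orb B hd hdK h' n) ih

omit hdK in
lemma Rg.shift {X : ℂ × ℝ} {η : ℂ} (h : Rg M d X η) (k : ℤ) :
    Rg M d X (η + k * (2 * Real.pi * I)) := by
  refine ⟨h.z, h.t, ?_, ?_⟩
  · rw [Complex.exp_add, Complex.exp_int_mul_two_pi_mul_I, mul_one, h.e]
  · have : (η + k * (2 * Real.pi * I)).re = η.re := by simp
    rw [this]
    exact h.r

lemma Th_le {X X' : ℂ × ℝ} {η η' : ℂ} (h : Rg M d X η) (h' : Rg M d X' η') (n : ℕ) :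
    Th d X n - Th d X' n ≤ 1 + 2 * M + 2 * Real.pi := by
  have hK := B.K1
  have hpi := Real.pi_pos
  set k : ℤ := ⌈(1 + 2 * M - (η' - η).im) / (2 * Real.pi)⌉ with hk
  have hk1 : (1 + 2 * M - (η' - η).im) / (2 * Real.pi) ≤ k := Int.le_ceil _
  have hk2 : (k : ℝ) < (1 + 2 * M - (η' - η).im) / (2 * Real.pi) + 1 := Int.ceil_lt_add_one _
  rw [div_le_iff₀ (by positivity)] at hk1
  have hk3 : (k : ℝ) * (2 * Real.pi) < 1 + 2 * M - (η' - η).im + 2 * Real.pi := by
    have := mul_lt_mul_of_pos_right hk2 (by positivity : 0 < 2 * Real.pi)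
    rwa [add_mul, div_mul_cancel₀ _ (by positivity), one_mul] at this
  have h2 := Rg.shift B hd h' k
  have him : (η' + k * (2 * Real.pi * I) - η).im = (η' - η).im + k * (2 * Real.pi) := by
    simp; ring
  have hre : (η' + k * (2 * Real.pi * I) - η).re = η'.re - η.re := by
    simp
  have hcn : Cn K X η X' (η' + k * (2 * Real.pi * I)) := by
    have r1 := abs_le.mp h.r
    have r2 := abs_le.mp h'.r
    have t1 := abs_le.mp h.t
    have t2 := abs_le.mp h'.t
    have hM := B.M0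
    constructor
    · rw [him, hre, abs_le]
      constructor <;> linarith
    · rw [him, abs_le]
      have : 1 + 2 * M ≤ 50 * K * ((η' - η).im + k * (2 * Real.pi)) := by nlinarith
      constructor <;> linarith
  have h3 := Cn.orb B hd hdK h h2 hcn n
  have h4 : 0 ≤ (eta d X' (η' + k * (2 * Real.pi * I)) n - eta d X η n).im := by
    have := h3.1
    have h5 := abs_nonneg (eta d X' (η' + k * (2 * Real.pi * I)) n - eta d X η n).re
    linarith
  rw [Complex.sub_im, eta_im, eta_im] at h4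
  rw [Complex.sub_im] at him
  linarith

lemma Th_quasi {X X' : ℂ × ℝ} {η η' : ℂ} (h : Rg M d X η) (h' : Rg M d X' η') (n : ℕ) :
    |Th d X n - Th d X' n| ≤ 1 + 2 * M + 2 * Real.pi := by
  rw [abs_le]
  have h1 := Th_le B hd hdK h h' n
  have h2 := Th_le B hd hdK h' h n
  constructor <;> linarith

omit B hd hdK in
lemma Th_add (d : ℝ) (X : ℂ × ℝ) (m n : ℕ) :
    Th d X (m + n) = Th d X m + Th d (orb d X m) n := by
  simp only [Th, orb, birkhoffSum_add]

lemma Th_bounds {X : ℂ × ℝ} {η : ℂ} (h : Rg M d X η) (n : ℕ) :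
    n * (0.1 * d ^ 2) ≤ Th d X n ∧ Th d X n ≤ n * (0.25 * d ^ 2) := by
  induction n with
  | zero => simp [Th]
  | succ n ih =>
    rw [Th_succ]
    have := Lg_im B hd (hdK1 B hd hdK) (Rg.orb B hd hdK h n)
    push_cast
    constructor <;> linarith [ih.1, ih.2]

/-- the rotation number -/
lemma exists_rot {X : ℂ × ℝ} {η : ℂ} (h : Rg M d X η) :
    ∃ R : ℝ, 0.1 * d ^ 2 ≤ R ∧ R ≤ 0.25 * d ^ 2 ∧
      ∀ n : ℕ, |Th d X n - n * R| ≤ 1 + 2 * M + 2 * Real.pi := by
  set b := 1 + 2 * M + 2 * Real.pi with hb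
  have hb0 : 0 < b := by
    have := B.M0
    have := Real.pi_pos
    positivity
  have hquasi : ∀ m n, |Th d X (m + n) - Th d X m - Th d X n| ≤ b := by
    intro m n
    rw [Th_add]
    have := Th_quasi B hd hdK (Rg.orb B hd hdK h m) h n
    have e : Th d X m + Th d (orb d X m) n - Th d X m - Th d X n =
      Th d (orb d X m) n - Th d X n := by ring
    rw [e]
    exact this
  have hu : Subadditive (fun n => Th d X n + b) := by
    intro m n
    have := (abs_le.mp (hquasi m n)).2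
    show Th d X (m + n) + b ≤ Th d X m + b + (Th d X n + b)
    linarith
  have hv : Subadditive (fun n => -Th d X n + b) := by
    intro m n
    have := (abs_le.mp (hquasi m n)).1
    show -Th d X (m + n) + b ≤ -Th d X m + b + (-Th d X n + b)
    linarith
  have hub : BddBelow (Set.range fun n : ℕ => (Th d X n + b) / n) := by
    refine ⟨0, ?_⟩
    rintro _ ⟨n, rfl⟩
    have := (Th_bounds B hd hdK h n).1
    have h2 : (0 : ℝ) ≤ n := Nat.cast_nonneg n
    have h3 : 0 ≤ (n : ℝ) * (0.1 * d ^ 2) := by positivity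
    apply div_nonneg _ h2
    linarith
  have hvb : BddBelow (Set.range fun n : ℕ => (-Th d X n + b) / n) := by
    refine ⟨-(0.25 * d ^ 2), ?_⟩
    rintro _ ⟨n, rfl⟩
    have h1 := (Th_bounds B hd hdK h n).2
    rcases Nat.eq_zero_or_pos n with h0 | h0
    · simp only [h0, Nat.cast_zero, div_zero]
      have : 0 ≤ 0.25 * d ^ 2 := by positivity
      linarith
    · have h2 : (0 : ℝ) < n := by exact_mod_cast h0
      show -(0.25 * d ^ 2) ≤ (-Th d X n + b) / n
      rw [le_div_iff₀ h2]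
      linarith
  have tu := hu.tendsto_lim hub
  have tv := hv.tendsto_lim hvb
  have hsum : hu.lim + hv.lim = 0 := by
    have t1 := tu.add tv
    have t2 : Tendsto (fun n : ℕ => (Th d X n + b) / n + (-Th d X n + b) / n) atTop (𝓝 0) := by
      have : (fun n : ℕ => (Th d X n + b) / n + (-Th d X n + b) / n) =
          fun n : ℕ => (2 * b) / (n : ℝ) := by
        funext n
        rw [← add_div]
        ring_nf
      rw [this]
      exact tendsto_const_div_atTop_nhds_zero_nat _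
    exact tendsto_nhds_unique t1 t2
  have hall : ∀ n : ℕ, |Th d X n - n * hu.lim| ≤ b := by
    intro n
    rcases Nat.eq_zero_or_pos n with h0 | h0
    · subst h0
      simp [Th, hb0.le]
    · have h2 : (0 : ℝ) < n := by exact_mod_cast h0
      have h3 := hu.lim_le_div hub h0.ne'
      have h4 := hv.lim_le_div hvb h0.ne'
      rw [le_div_iff₀ h2] at h3 h4
      have h5 : hv.lim = - hu.lim := by linarith
      rw [h5] at h4
      rw [abs_le]
      constructor <;> linarith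
  have tR : Tendsto (fun n : ℕ => Th d X n / n) atTop (𝓝 hu.lim) := by
    have t1 := tu.sub (tendsto_const_div_atTop_nhds_zero_nat b)
    rw [sub_zero] at t1
    refine t1.congr (fun n => ?_)
    ring
  refine ⟨hu.lim, ?_, ?_, hall⟩
  · refine ge_of_tendsto tR ?_
    filter_upwards [eventually_gt_atTop 0] with n hn
    have h2 : (0 : ℝ) < n := by exact_mod_cast hn
    rw [le_div_iff₀ h2]
    have := (Th_bounds B hd hdK h n).1
    linarith
  · refine le_of_tendsto tR ?_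
    filter_upwards [eventually_gt_atTop 0] with n hn
    have h2 : (0 : ℝ) < n := by exact_mod_cast hn
    rw [div_le_iff₀ h2]
    have := (Th_bounds B hd hdK h n).2
    linarith

end

end

end Pool.Agent.H50.NS
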