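import Pool.Agent.H50.NS.Reg

/-!
Elementary estimates for the exponential and the logarithm.
-/

namespace Pool.Agent.H50.NS

noncomputable section

open Complex

lemma log_diff {a b : ℂ} {r : ℝ} (hr : r ≤ 1 / 2) (ha : ‖a‖ ≤ r) (hb : ‖b‖ ≤ r) :
    ‖(Complex.log (1 + a) - a) - (Complex.log (1 + b) - b)‖ ≤ 2 * r * ‖a - b‖ := by
  have hr0 : 0 ≤ r := (norm_nonneg _).trans ha
  have hd : ∀ z ∈ Metric.closedBall (0 : ℂ) r,
      HasDerivWithinAt (fun z : ℂ => Complex.log (1 + z) - z) (1 / (1 + z) - 1)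
        (Metric.closedBall (0 : ℂ) r) z := by
    intro z hz
    rw [mem_closedBall_zero_iff] at hz
    have h1 : HasDerivAt (fun z : ℂ => 1 + z) 1 z := (hasDerivAt_id z).const_add 1
    have h2 : (1 + z) ∈ Complex.slitPlane := by
      left
      have := Complex.abs_re_le_norm z
      have h3 := (abs_le.mp (this.trans hz)).1
      simp only [Complex.add_re, Complex.one_re]
      linarith
    exact ((h1.clog h2).sub (hasDerivAt_id z)).hasDerivWithinAt
  have hb' : ∀ z ∈ Metric.closedBall (0 : ℂ) r, ‖(1 / (1 + z) - 1 : ℂ)‖ ≤ 2 * r := by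
    intro z hz
    rw [mem_closedBall_zero_iff] at hz
    have h1 : 1 / 2 ≤ ‖1 + z‖ := by
      have := norm_sub_norm_le (1 : ℂ) (-z)
      rw [norm_neg, norm_one, sub_neg_eq_add] at this
      linarith
    have h2 : (1 + z) ≠ 0 := by
      intro h
      rw [h, norm_zero] at h1
      linarith
    have h3 : (1 / (1 + z) - 1 : ℂ) = -z / (1 + z) := by
      field_simp
      ring
    rw [h3, norm_div, norm_neg, div_le_iff₀ (by linarith)]
    nlinarith
  have := Convex.norm_image_sub_le_of_norm_hasDerivWithin_le hd hb' (convex_closedBall _ _)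
    (mem_closedBall_zero_iff.mpr hb) (mem_closedBall_zero_iff.mpr ha)
  exact this

lemma log_small {a : ℂ} (ha : ‖a‖ ≤ 1 / 2) :
    ‖Complex.log (1 + a) - a‖ ≤ 2 * ‖a‖ ^ 2 := by
  have := log_diff (a := a) (b := 0) ha le_rfl (by simp)
  simpa [pow_two, mul_assoc] using this

lemma exp_diff {a b : ℂ} {m : ℝ} (ha : a.re ≤ m) (hb : b.re ≤ m) :
    ‖Complex.exp a - Complex.exp b‖ ≤ Real.exp m * ‖a - b‖ := by
  have hd : ∀ z ∈ {z : ℂ | z.re ≤ m},
      HasDerivWithinAt Complex.exp (Complex.exp z) {z : ℂ | z.re ≤ m} z :=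
    fun z _ => (Complex.hasDerivAt_exp z).hasDerivWithinAt
  have hb' : ∀ z ∈ {z : ℂ | z.re ≤ m}, ‖Complex.exp z‖ ≤ Real.exp m := by
    intro z hz
    rw [Complex.norm_exp]
    exact Real.exp_le_exp.mpr hz
  exact Convex.norm_image_sub_le_of_norm_hasDerivWithin_le hd hb' (convex_halfSpace_re_le m)
    hb ha

lemma real_exp_diff {r r' lo hi : ℝ} (h : lo ≤ r) (h' : lo ≤ r') (k : r ≤ hi) (k' : r' ≤ hi) :
    ∃ c, 2 * Real.exp (2 * lo) ≤ c ∧ c ≤ 2 * Real.exp (2 * hi) ∧
      Real.exp (2 * r) - Real.exp (2 * r') = c * (r - r') := by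
  wlog hrr : r' ≤ r generalizing r r' with H
  · obtain ⟨c, h1, h2, h3⟩ := H h' h k' k (le_of_not_ge hrr)
    exact ⟨c, h1, h2, by linarith⟩
  rcases hrr.eq_or_lt with he | hlt
  · refine ⟨2 * Real.exp (2 * lo), le_rfl, ?_, by rw [he]; ring⟩
    have : Real.exp (2 * lo) ≤ Real.exp (2 * hi) := Real.exp_le_exp.mpr (by linarith)
    linarith
  · have hpos : 0 < r - r' := by linarith
    refine ⟨(Real.exp (2 * r) - Real.exp (2 * r')) / (r - r'), ?_, ?_, ?_⟩
    · rw [le_div_iff₀ hpos]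
      have h1 : Real.exp (2 * r) = Real.exp (2 * r') * Real.exp (2 * (r - r')) := by
        rw [← Real.exp_add]; ring_nf
      have h2 := Real.add_one_le_exp (2 * (r - r'))
      have h3 : Real.exp (2 * lo) ≤ Real.exp (2 * r') := Real.exp_le_exp.mpr (by linarith)
      have h4 := Real.exp_pos (2 * r')
      rw [h1]
      nlinarith
    · rw [div_le_iff₀ hpos]
      have h1 : Real.exp (2 * r') = Real.exp (2 * r) * Real.exp (-(2 * (r - r'))) := by
        rw [← Real.exp_add]; ring_nf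
      have h2 := Real.add_one_le_exp (-(2 * (r - r')))
      have h3 : Real.exp (2 * r) ≤ Real.exp (2 * hi) := Real.exp_le_exp.mpr (by linarith)
      have h4 := Real.exp_pos (2 * r)
      rw [h1]
      nlinarith
    · field_simp

/-- the logarithm of the limit radius -/
def rho : ℝ := Real.log rr / 2

lemma rr_gt : 4.64 < rr := by unfold rr; have := mu_gt; linarith
lemma rr_lt : rr < 4.65 := by unfold rr; have := mu_lt; linarith

lemma exp_rho : Real.exp (2 * rho) = rr := by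
  unfold rho
  rw [show 2 * (Real.log rr / 2) = Real.log rr by ring]
  exact Real.exp_log (by have := rr_gt; linarith)

lemma exp_tenth : Real.exp (1 / 10) ≤ 10 / 9 := by
  have h := Real.add_one_le_exp (-(1 / 10) : ℝ)
  have h2 : Real.exp (1 / 10) * Real.exp (-(1 / 10)) = 1 := by
    rw [← Real.exp_add]; norm_num
  have h3 := Real.exp_pos (1 / 10)
  nlinarith

lemma exp_hi : Real.exp (2 * (rho + 1 / 20)) ≤ 5.5 := by
  have : Real.exp (2 * (rho + 1 / 20)) = rr * Real.exp (1 / 10) := by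
    rw [← exp_rho, ← Real.exp_add]; ring_nf
  rw [this]
  have h1 := exp_tenth
  have h2 := rr_lt
  have h3 := rr_gt
  nlinarith

lemma exp_lo : 4 ≤ Real.exp (2 * (rho - 1 / 20)) := by
  have : Real.exp (2 * (rho - 1 / 20)) = rr * Real.exp (-(1 / 10)) := by
    rw [← exp_rho, ← Real.exp_add]; ring_nf
  rw [this]
  have h := Real.add_one_le_exp (-(1 / 10) : ℝ)
  have h3 := rr_gt
  nlinarith

lemma exp_hi' : Real.exp (rho + 1 / 20) ≤ 2.5 := by
  have h : Real.exp (rho + 1 / 20) ^ 2 ≤ 5.5 := by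
    rw [← Real.exp_nat_mul]
    exact_mod_cast exp_hi
  have h2 := Real.exp_pos (rho + 1 / 20)
  nlinarith

lemma exp_lo' : 2 ≤ Real.exp (rho - 1 / 20) := by
  have h : 4 ≤ Real.exp (rho - 1 / 20) ^ 2 := by
    rw [← Real.exp_nat_mul]
    exact_mod_cast exp_lo
  have h2 := Real.exp_pos (rho - 1 / 20)
  nlinarith

lemma exp_slope {r r' : ℝ} (h : |r - rho| ≤ 1 / 20) (h' : |r' - rho| ≤ 1 / 20) :
    ∃ c, 8 ≤ c ∧ c ≤ 11 ∧ Real.exp (2 * r) - Real.exp (2 * r') = c * (r - r') := by
  rw [abs_le] at h h'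
  obtain ⟨c, h1, h2, h3⟩ := real_exp_diff (r := r) (r' := r') (lo := rho - 1 / 20)
    (hi := rho + 1 / 20) (by linarith) (by linarith) (by linarith) (by linarith)
  have := exp_lo
  have := exp_hi
  exact ⟨c, by linarith, by linarith, h3⟩

lemma sn_gt : 0.95 < sn := by
  have h := sn_sq
  have h1 := sn_pos
  have h2 := mu_gt
  nlinarith

lemma sn_lt : sn < 0.96 := by
  have h := sn_sq
  have h1 := sn_pos
  have h2 := mu_lt
  nlinarith

end

end Pool.Agent.H50.NS
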