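import Pool.Agent.H50.NS.Elem

/-!
The trapping region, its invariance, and the difference estimates.
-/

namespace Pool.Agent.H50.NS

noncomputable section

open Complex

/-- lifted states in the trapping region -/
structure Rg (M d : ℝ) (X : ℂ × ℝ) (η : ℂ) : Prop where
  z : ‖X.1‖ ≤ 3
  t : |X.2| ≤ M
  e : Complex.exp η = zet (d, X)
  r : |η.re - rho| ≤ 1 / 20

/-- the logarithmic increment -/
def Lg (d : ℝ) (X : ℂ × ℝ) : ℂ := Complex.log (1 + w (d, X))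

/-- the argument of `lam` -/
def om : ℝ := Complex.arg lam

lemma norm_lam : ‖lam‖ = 1 := by
  have h : lam * (starRingEnd ℂ) lam = 1 := by rw [conj_lam]; exact lam_mul_lamb
  rw [Complex.mul_conj] at h
  have h2 : Complex.normSq lam = 1 := by exact_mod_cast h
  rw [Complex.normSq_eq_norm_sq] at h2
  have h3 := norm_nonneg lam
  nlinarith

lemma norm_lamb : ‖lamb‖ = 1 := by
  rw [← conj_lam, RCLike.norm_conj, norm_lam]

lemma exp_om : Complex.exp (om * I) = lam := by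
  have := Complex.norm_mul_exp_arg_mul_I lam
  rw [norm_lam] at this
  simpa [om] using this

/-- bundle of the bounds used below -/
structure Bds (M K : ℝ) : Prop where
  K1 : 1 ≤ K
  M0 : 0 ≤ M
  r60 : ∀ p ∈ Bx M, ‖R60 p‖ + 1 ≤ M / 3
  l60 : ∀ p ∈ Bx M, ∀ q ∈ Bx M, p.1 = q.1 → ‖R60 p - R60 q‖ ≤ K * ‖p.2.1 - q.2.1‖
  g : ∀ p ∈ Bx M, ‖G p‖ ≤ K
  lg : ∀ p ∈ Bx M, ∀ q ∈ Bx M, p.1 = q.1 → ‖G p - G q‖ ≤ K * ‖p.2.1 - q.2.1‖
  dn : ∀ p ∈ Bx M, ‖Y p + fd p * ((1 + mu) * S p)‖ ≤ K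
  n1 : ∀ p ∈ Dm M, ‖cE * N1 p‖ ≤ K
  r61 : ∀ p ∈ Dm M, ‖R61 p‖ ≤ K
  l61 : ∀ p ∈ Dm M, ∀ q ∈ Dm M, p.1 = q.1 → ‖R61 p - R61 q‖ ≤ K * dst p q
  r5 : ∀ p ∈ Dm M, ‖R5 p‖ ≤ K
  l5 : ∀ p ∈ Dm M, ∀ q ∈ Dm M, p.1 = q.1 → ‖R5 p - R5 q‖ ≤ K * dst p q
  w : ∀ p ∈ Dm M, ‖w2 p‖ ≤ K
  lw : ∀ p ∈ Dm M, ∀ q ∈ Dm M, p.1 = q.1 → ‖w2 p - w2 q‖ ≤ K * dst p q

lemma exists_bds : ∃ M K : ℝ, 0 < M ∧ Bds M K := by
  obtain ⟨C60, h60, b60⟩ := (bR60 (M := 0)).bd
  obtain ⟨D60, k60, l60⟩ := (bR60 (M := 0)).lip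
  obtain ⟨DG, kG, lG⟩ := (bG (M := 0)).lip
  set M := 3 * (C60 + 1) with hMdef
  have hM : 0 ≤ M := by positivity
  obtain ⟨CG, hG, g⟩ := (bG (M := M)).bd
  obtain ⟨Cd, hd, dn⟩ := ((bY (M := M)).add (bd.mul ((bc (1 + mu)).mul (bS hM)))).bd
  obtain ⟨CN, hN, n1⟩ := ((bc cE).mul (bN1 hM)).bd
  obtain ⟨C61, h61, r61⟩ := (bR61 hM).bd
  obtain ⟨D61, k61, l61⟩ := (bR61 hM).lip
  obtain ⟨C5, h5, r5⟩ := (bR5 hM).bd
  obtain ⟨D5, k5, l5⟩ := (bR5 hM).lip
  obtain ⟨Cw, hw, w⟩ := (bw2 hM).bd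
  obtain ⟨Dw, kw, lw⟩ := (bw2 hM).lip
  set K := 1 + D60 + DG + CG + Cd + CN + C61 + D61 + C5 + D5 + Cw + Dw with hKdef
  have red : ∀ p ∈ Bx M, (p.1, (p.2.1, (0 : ℝ))) ∈ Bx 0 := fun p hp =>
    ⟨hp.1, hp.2.1, hp.2.2.1, by simp⟩
  refine ⟨M, K, by positivity, ?_⟩
  constructor
  · linarith
  · exact hM
  · intro p hp
    have h1 := b60 _ (red p hp)
    have h2 : R60 (p.1, (p.2.1, (0 : ℝ))) = R60 p := rfl
    rw [h2] at h1
    rw [hMdef]
    linarith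
  · intro p hp q hq he
    have h1 := l60 _ (red p hp) _ (red q hq) he
    have h2 : R60 (p.1, (p.2.1, (0 : ℝ))) = R60 p := rfl
    have h3 : R60 (q.1, (q.2.1, (0 : ℝ))) = R60 q := rfl
    rw [h2, h3] at h1
    have h4 : dst (p.1, (p.2.1, (0 : ℝ))) (q.1, (q.2.1, (0 : ℝ))) = ‖p.2.1 - q.2.1‖ := by
      simp [dst]
    rw [h4] at h1
    have := norm_nonneg (p.2.1 - q.2.1)
    have h5 : D60 ≤ K := by rw [hKdef]; linarith
    nlinarith
  · intro p hp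
    have := g p hp
    linarith
  · intro p hp q hq he
    have h1 := lG _ (red p hp) _ (red q hq) he
    have h2 : G (p.1, (p.2.1, (0 : ℝ))) = G p := rfl
    have h3 : G (q.1, (q.2.1, (0 : ℝ))) = G q := rfl
    rw [h2, h3] at h1
    have h4 : dst (p.1, (p.2.1, (0 : ℝ))) (q.1, (q.2.1, (0 : ℝ))) = ‖p.2.1 - q.2.1‖ := by
      simp [dst]
    rw [h4] at h1
    have := norm_nonneg (p.2.1 - q.2.1)
    have h5 : DG ≤ K := by rw [hKdef]; linarith
    nlinarith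
  · intro p hp
    have := dn p hp
    linarith
  · intro p hp
    have := n1 p hp
    linarith
  · intro p hp
    have := r61 p hp
    linarith
  · intro p hp q hq he
    have h1 := l61 p hp q hq he
    have h5 : D61 ≤ K := by rw [hKdef]; linarith
    have := dst_nonneg p q
    nlinarith
  · intro p hp
    have := r5 p hp
    linarith
  · intro p hp q hq he
    have h1 := l5 p hp q hq he
    have h5 : D5 ≤ K := by rw [hKdef]; linarith
    have := dst_nonneg p q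
    nlinarith
  · intro p hp
    have := w p hp
    linarith
  · intro p hp q hq he
    have h1 := lw p hp q hq he
    have h5 : Dw ≤ K := by rw [hKdef]; linarith
    have := dst_nonneg p q
    nlinarith

section

variable {M K d : ℝ} (B : Bds M K) (hd : 0 < d) (hdK : d * K ≤ 1 / 100)

include B hd hdK

lemma d_le : d ≤ 1 / 100 := by
  have := B.K1
  nlinarith

lemma Rg.bx {X : ℂ × ℝ} {η : ℂ} (h : Rg M d X η) : ((d, X) : Pt) ∈ Bx M := by
  have h1 := d_le B hd hdK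
  have h2 := h.z
  have h3 := h.t
  exact ⟨hd, by show d ≤ 1; linarith, by show ‖X.1‖ ≤ 4; linarith, h3⟩

lemma Rg.norm_zet {X : ℂ × ℝ} {η : ℂ} (h : Rg M d X η) :
    2 ≤ ‖zet (d, X)‖ ∧ ‖zet (d, X)‖ ≤ 2.5 := by
  rw [← h.e, Complex.norm_exp]
  have h1 := abs_le.mp h.r
  constructor
  · exact exp_lo'.trans (Real.exp_le_exp.mpr (by linarith))
  · exact (Real.exp_le_exp.mpr (by linarith)).trans exp_hi'

lemma den_near {X : ℂ × ℝ} (h : ((d, X) : Pt) ∈ Bx M) : ‖den (d, X) - 1‖ ≤ 1 / 100 := by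
  have h1 := B.dn _ h
  have h2 : den (d, X) - 1 = fd (d, X) * (Y (d, X) + fd (d, X) * ((1 + mu) * S (d, X))) := by
    simp only [den]; ring
  rw [h2, norm_mul]
  have h3 : ‖fd (d, X)‖ = d := by
    simp only [fd, Complex.norm_real, Real.norm_eq_abs, abs_of_pos hd]
  rw [h3]
  nlinarith

lemma Rg.dm {X : ℂ × ℝ} {η : ℂ} (h : Rg M d X η) : ((d, X) : Pt) ∈ Dm M := by
  have h1 := Rg.bx B hd hdK h
  refine ⟨h1, ?_, ?_⟩
  · have h2 := den_near B hd hdK h1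
    have h3 := norm_sub_norm_le (1 : ℂ) (1 - den (d, X))
    rw [norm_one, sub_sub_cancel, norm_sub_rev] at h3
    linarith
  · have := (Rg.norm_zet B hd hdK h).1
    linarith

lemma norm_fd (X : ℂ × ℝ) : ‖fd (d, X)‖ = d := by
  simp only [fd, Complex.norm_real, Real.norm_eq_abs, abs_of_pos hd]

lemma w_small {X : ℂ × ℝ} (h : ((d, X) : Pt) ∈ Dm M) : ‖w (d, X)‖ ≤ d ^ 2 * K := by
  have h1 := B.w _ h
  simp only [w]
  rw [norm_mul, norm_pow, norm_fd B hd hdK]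
  have : 0 ≤ d ^ 2 := by positivity
  nlinarith

lemma w_half {X : ℂ × ℝ} (h : ((d, X) : Pt) ∈ Dm M) : ‖w (d, X)‖ ≤ 1 / 2 := by
  have h1 := w_small B hd hdK h
  have h2 := d_le B hd hdK
  have h3 := B.K1
  nlinarith

lemma Lg_near {X : ℂ × ℝ} {η : ℂ} (h : Rg M d X η) :
    ‖Lg d X - (d ^ 2 * (cE + c1 * Real.exp (2 * η.re)) : ℂ)‖ ≤ 2 * K * d ^ 3 := by
  have hD := Rg.dm B hd hdK h
  have h1 := log_small (w_half B hd hdK hD)
  have h2 := w_small B hd hdK hD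
  have h3 := B.r5 _ hD
  have h4 : zet (d, X) * (starRingEnd ℂ) (zet (d, X)) = (Real.exp (2 * η.re) : ℂ) := by
    rw [Complex.mul_conj, Complex.normSq_eq_norm_sq, ← h.e, Complex.norm_exp, ← Real.exp_nat_mul]
    norm_num
  have h5 : w (d, X) = (d ^ 2 * (cE + c1 * Real.exp (2 * η.re)) : ℂ) +
      (d ^ 3 : ℂ) * R5 (d, X) := by
    simp only [w, w2, h4, fd]; ring
  have h6 : Lg d X - (d ^ 2 * (cE + c1 * Real.exp (2 * η.re)) : ℂ) =
    (Complex.log (1 + w (d, X)) - w (d, X)) + (d ^ 3 : ℂ) * R5 (d, X) := by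
    rw [Lg]
    linear_combination h5
  rw [h6]
  refine (norm_add_le _ _).trans ?_
  have h7 : ‖(d ^ 3 : ℂ) * R5 (d, X)‖ ≤ d ^ 3 * K := by
    rw [norm_mul, norm_pow, Complex.norm_real, Real.norm_eq_abs, abs_of_pos hd]
    have : 0 ≤ d ^ 3 := by positivity
    nlinarith
  have h8 : 2 * ‖w (d, X)‖ ^ 2 ≤ K * d ^ 3 := by
    have h9 : ‖w (d, X)‖ ^ 2 ≤ (d ^ 2 * K) ^ 2 := by
      have := norm_nonneg (w (d, X))
      exact pow_le_pow_left₀ this h2 2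
    have h10 : (d ^ 2 * K) ^ 2 = (d * K) * (K * d ^ 3) := by ring
    have h11 : 0 ≤ K * d ^ 3 := by have := B.K1; positivity
    rw [h10] at h9
    nlinarith
  linarith

lemma exp_add_rho {X : ℂ × ℝ} {η : ℂ} (h : Rg M d X η) :
    ∃ c, 8 ≤ c ∧ c ≤ 11 ∧ Real.exp (2 * η.re) = rr + c * (η.re - rho) := by
  obtain ⟨c, h1, h2, h3⟩ := exp_slope h.r (r' := rho) (by simp)
  rw [exp_rho] at h3
  exact ⟨c, h1, h2, by linarith⟩

lemma Lg_re {X : ℂ × ℝ} {η : ℂ} (h : Rg M d X η) :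
    |η.re + (Lg d X).re - rho| ≤ 1 / 20 := by
  obtain ⟨c, hc1, hc2, hc3⟩ := exp_add_rho B hd hdK h
  have h1 := Lg_near B hd hdK h
  have h2 := (Complex.abs_re_le_norm _).trans h1
  have h3 : (Lg d X - (d ^ 2 * (cE + c1 * Real.exp (2 * η.re)) : ℂ)).re =
      (Lg d X).re - d ^ 2 * (cE.re + c1.re * (rr + c * (η.re - rho))) := by
    rw [hc3]
    have : (d ^ 2 * (cE + c1 * ((rr + c * (η.re - rho) : ℝ) : ℂ)) : ℂ) =
      ((d ^ 2 : ℝ) : ℂ) * (cE + c1 * ((rr + c * (η.re - rho) : ℝ) : ℂ)) := by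
      push_cast; ring
    rw [this, Complex.sub_re, Complex.re_ofReal_mul, Complex.add_re, Complex.re_mul_ofReal]
  rw [h3] at h2
  have h4 := re_zero
  have h5 := c1_re
  have h6 := mu_gt
  have h7 := mu_lt
  set s := η.re - rho with hs
  have h8 : d ^ 2 * (cE.re + c1.re * (rr + c * s)) = - (3 * mu / 22 * c * d ^ 2) * s := by
    have : cE.re + c1.re * (rr + c * s) = c1.re * (c * s) := by linarith
    rw [this, h5]; ring
  rw [h8] at h2
  have h9 := h.r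
  rw [← hs] at h9
  have h10 : η.re + (Lg d X).re - rho =
    (1 - 3 * mu / 22 * c * d ^ 2) * s + ((Lg d X).re - - (3 * mu / 22 * c * d ^ 2) * s) := by
    rw [hs]; ring
  rw [h10]
  refine (abs_add_le _ _).trans ?_
  have h11 : 0 < d ^ 2 := by positivity
  have hd1 := d_le B hd hdK
  have h12 : d ^ 2 ≤ 1 / 100 := by nlinarith
  have hb1 : 0.084 ≤ 3 * mu / 22 := by linarith
  have hb2 : 3 * mu / 22 ≤ 0.085 := by linarith
  have hb3 : 0.67 ≤ 3 * mu / 22 * c := by nlinarith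
  have hb4 : 3 * mu / 22 * c ≤ 1 := by nlinarith
  have h13 : 0 ≤ 1 - 3 * mu / 22 * c * d ^ 2 := by nlinarith
  rw [abs_mul, abs_of_nonneg h13]
  have h14 : (1 - 3 * mu / 22 * c * d ^ 2) * |s| ≤ (1 - 0.67 * d ^ 2) * (1 / 20) := by
    have : 1 - 3 * mu / 22 * c * d ^ 2 ≤ 1 - 0.67 * d ^ 2 := by nlinarith
    have hs0 := abs_nonneg s
    nlinarith
  have h15 : 2 * K * d ^ 3 ≤ d ^ 2 / 50 := by
    have : 2 * K * d ^ 3 = 2 * (d * K) * d ^ 2 := by ring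
    rw [this]
    nlinarith
  linarith

lemma Lg_im {X : ℂ × ℝ} {η : ℂ} (h : Rg M d X η) :
    0.1 * d ^ 2 ≤ (Lg d X).im ∧ (Lg d X).im ≤ 0.25 * d ^ 2 := by
  obtain ⟨c, hc1, hc2, hc3⟩ := exp_add_rho B hd hdK h
  have h1 := Lg_near B hd hdK h
  have h2 := (Complex.abs_im_le_norm _).trans h1
  have h3 : (Lg d X - (d ^ 2 * (cE + c1 * Real.exp (2 * η.re)) : ℂ)).im =
      (Lg d X).im - d ^ 2 * (cE.im + c1.im * (rr + c * (η.re - rho))) := by
    rw [hc3]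
    have : (d ^ 2 * (cE + c1 * ((rr + c * (η.re - rho) : ℝ) : ℂ)) : ℂ) =
      ((d ^ 2 : ℝ) : ℂ) * (cE + c1 * ((rr + c * (η.re - rho) : ℝ) : ℂ)) := by
      push_cast; ring
    rw [this, Complex.sub_im, Complex.im_ofReal_mul, Complex.add_im, Complex.im_mul_ofReal]
  rw [h3] at h2
  have h4 := im_pos
  have h5 := c1_im
  have h6 := mu_gt
  have h7 := mu_lt
  have hs1 := sn_gt
  have hs2 := sn_lt
  set s := η.re - rho with hs
  have h8 : cE.im + c1.im * (rr + c * s) =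
      sn * (2 * (2 - mu) / 15) + sn * (16 * mu - 7) / 55 * (c * s) := by
    rw [← h4, h5]; ring
  rw [h8] at h2
  have h9 := h.r
  rw [← hs] at h9
  have h10 : |c * s| ≤ 11 / 20 := by
    rw [abs_mul, abs_of_pos (by linarith : (0:ℝ) < c)]
    have := abs_nonneg s
    nlinarith
  have h11 : 0 < d ^ 2 := by positivity
  have e1 : 0.17 ≤ sn * (2 * (2 - mu) / 15) := by nlinarith
  have e2 : sn * (2 * (2 - mu) / 15) ≤ 0.18 := by nlinarith
  have e3 : 0 ≤ sn * (16 * mu - 7) / 55 := by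
    have : 0 ≤ 16 * mu - 7 := by linarith
    positivity
  have e4 : sn * (16 * mu - 7) / 55 ≤ 0.06 := by nlinarith
  have e5 : |sn * (16 * mu - 7) / 55 * (c * s)| ≤ 0.04 := by
    rw [abs_mul, abs_of_nonneg e3]
    have := abs_nonneg (c * s)
    nlinarith
  have h15 : 2 * K * d ^ 3 ≤ d ^ 2 / 50 := by
    have : 2 * K * d ^ 3 = 2 * (d * K) * d ^ 2 := by ring
    rw [this]
    nlinarith
  have e6 := abs_le.mp e5
  have e7 := abs_le.mp h2
  constructor <;> nlinarith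

lemma T_inv {X : ℂ × ℝ} {η : ℂ} (h : Rg M d X η) : |(stp d X).2| ≤ M := by
  have hD := Rg.dm B hd hdK h
  have h1 : ‖T1 (d, X)‖ ≤ mu * M + (M / 3 - 1) + d * K := by
    rw [T1_eq]
    have e1 : ‖(mu : ℂ) * fT (d, X)‖ ≤ mu * M := by
      rw [norm_mul]
      simp only [fT, Complex.norm_real, Real.norm_eq_abs]
      rw [abs_of_pos mu_pos]
      exact mul_le_mul_of_nonneg_left h.t mu_pos.le
    have e2 := B.r60 _ hD.1
    have e3 : ‖fd (d, X) * R61 (d, X)‖ ≤ d * K := by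
      rw [norm_mul, norm_fd B hd hdK]
      exact mul_le_mul_of_nonneg_left (B.r61 _ hD) hd.le
    refine (norm_add₃_le).trans ?_
    linarith
  have h2 : (((stp d X).2 : ℝ) : ℂ) = T1 (d, X) := ofReal_re_of_conj (conj_T1 _)
  rw [← h2, Complex.norm_real, Real.norm_eq_abs] at h1
  have h3 := mu_lt
  have h4 := B.M0
  nlinarith

lemma Rg.step {X : ℂ × ℝ} {η : ℂ} (h : Rg M d X η) :
    Rg M d (stp d X) (η + om * I + Lg d X) := by
  have hD := Rg.dm B hd hdK h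
  have ht := T_inv B hd hdK h
  have hr : |(η + om * I + Lg d X).re - rho| ≤ 1 / 20 := by
    have := Lg_re B hd hdK h
    simpa using this
  have he : Complex.exp (η + om * I + Lg d X) = zet (d, stp d X) := by
    have hz : zet (d, X) ≠ 0 := by
      rw [← h.e]; exact Complex.exp_ne_zero _
    have h1 : (1 + w (d, X)) ≠ 0 := by
      intro h0
      have h2 := w_half B hd hdK hD
      have h3 : w (d, X) = -1 := by linear_combination h0
      rw [h3, norm_neg, norm_one] at h2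
      norm_num at h2
    rw [zet_stp _ _ hz, Complex.exp_add, Complex.exp_add, exp_om, h.e, Lg, Complex.exp_log h1]
    ring
  refine ⟨?_, ht, he, hr⟩
  have h4 : ‖(stp d X).1‖ ≤ 4 := by
    have : (stp d X).1 = lam * X.1 + fd (d, X) * (cE * N1 (d, X)) := by
      show Z1 (d, X) = _
      simp only [Z1, fZ]; ring
    rw [this]
    refine (norm_add_le _ _).trans ?_
    rw [norm_mul, norm_mul, norm_lam, norm_fd B hd hdK]
    have h5 := B.n1 _ hD
    have h6 := h.z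
    nlinarith
  have hb : ((d, stp d X) : Pt) ∈ Bx M := ⟨hd, by
    show d ≤ 1
    have := d_le B hd hdK
    linarith, h4, ht⟩
  have h7 := B.g _ hb
  have h8 : ‖zet (d, stp d X)‖ ≤ 2.5 := by
    rw [← he, Complex.norm_exp]
    have h1 := abs_le.mp hr
    exact (Real.exp_le_exp.mpr (by linarith)).trans exp_hi'
  have h9 : (stp d X).1 = zet (d, stp d X) - fd (d, stp d X) * G (d, stp d X) := by
    simp only [zet, fZ]; ring
  rw [h9]
  refine (norm_sub_le _ _).trans ?_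
  rw [norm_mul, norm_fd B hd hdK]
  nlinarith

lemma dst_le {X X' : ℂ × ℝ} {η η' : ℂ} (h : Rg M d X η) (h' : Rg M d X' η') :
    ‖X.1 - X'.1‖ ≤ 5 * ‖η - η'‖ := by
  have h1 := B.lg _ (Rg.bx B hd hdK h) _ (Rg.bx B hd hdK h') rfl
  have h2 : ‖zet (d, X) - zet (d, X')‖ ≤ 2.5 * ‖η - η'‖ := by
    rw [← h.e, ← h'.e]
    have r1 := abs_le.mp h.r
    have r2 := abs_le.mp h'.r
    refine (exp_diff (m := rho + 1 / 20) (by linarith) (by linarith)).trans ?_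
    exact mul_le_mul_of_nonneg_right exp_hi' (norm_nonneg _)
  have h3 : X.1 - X'.1 = (zet (d, X) - zet (d, X')) - fd (d, X) * (G (d, X) - G (d, X')) := by
    simp only [zet, fZ, fd]; ring
  have h4 : ‖X.1 - X'.1‖ ≤ 2.5 * ‖η - η'‖ + d * (K * ‖X.1 - X'.1‖) := by
    conv_lhs => rw [h3]
    refine (norm_sub_le _ _).trans ?_
    rw [norm_mul, norm_fd B hd hdK]
    exact add_le_add h2 (mul_le_mul_of_nonneg_left h1 hd.le)
  have h5 := norm_nonneg (X.1 - X'.1)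
  have h6 : d * (K * ‖X.1 - X'.1‖) = (d * K) * ‖X.1 - X'.1‖ := by ring
  rw [h6] at h4
  nlinarith

lemma Lg_diff {X X' : ℂ × ℝ} {η η' : ℂ} (h : Rg M d X η) (h' : Rg M d X' η') :
    ‖Lg d X - Lg d X' - (d ^ 2 * c1 * (Real.exp (2 * η.re) - Real.exp (2 * η'.re)) : ℂ)‖ ≤
      10 * K * d ^ 3 * (‖η - η'‖ + |X.2 - X'.2|) := by
  have hD := Rg.dm B hd hdK h
  have hD' := Rg.dm B hd hdK h'
  have hdz := dst_le B hd hdK h h'
  have hst : dst (d, X) (d, X') ≤ 5 * (‖η - η'‖ + |X.2 - X'.2|) := by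
    unfold dst
    have := abs_nonneg (X.2 - X'.2)
    show ‖X.1 - X'.1‖ + |X.2 - X'.2| ≤ _
    linarith
  have h1 := log_diff (r := d ^ 2 * K) (by
    have h2 := d_le B hd hdK
    have h3 := B.K1
    nlinarith) (w_small B hd hdK hD) (w_small B hd hdK hD')
  have h5 : ∀ X η, Rg M d X η → w (d, X) = (d ^ 2 * (cE + c1 * Real.exp (2 * η.re)) : ℂ) +
      (d ^ 3 : ℂ) * R5 (d, X) := by
    intro X η h
    have h4 : zet (d, X) * (starRingEnd ℂ) (zet (d, X)) = (Real.exp (2 * η.re) : ℂ) := by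
      rw [Complex.mul_conj, Complex.normSq_eq_norm_sq, ← h.e, Complex.norm_exp,
        ← Real.exp_nat_mul]
      norm_num
    simp only [w, w2, h4, fd]; ring
  have hw := h5 X η h
  have hw' := h5 X' η' h'
  have h6 : Lg d X - Lg d X' - (d ^ 2 * c1 * (Real.exp (2 * η.re) - Real.exp (2 * η'.re)) : ℂ) =
    ((Complex.log (1 + w (d, X)) - w (d, X)) - (Complex.log (1 + w (d, X')) - w (d, X'))) +
      (d ^ 3 : ℂ) * (R5 (d, X) - R5 (d, X')) := by
    rw [Lg, Lg]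
    linear_combination hw - hw'
  rw [h6]
  refine (norm_add_le _ _).trans ?_
  have h7 : ‖(d ^ 3 : ℂ) * (R5 (d, X) - R5 (d, X'))‖ ≤ d ^ 3 * (K * dst (d, X) (d, X')) := by
    rw [norm_mul, norm_pow, Complex.norm_real, Real.norm_eq_abs, abs_of_pos hd]
    exact mul_le_mul_of_nonneg_left (B.l5 _ hD _ hD' rfl) (by positivity)
  have h8 : ‖w (d, X) - w (d, X')‖ ≤ d ^ 2 * (K * dst (d, X) (d, X')) := by
    have : w (d, X) - w (d, X') = (d ^ 2 : ℂ) * (w2 (d, X) - w2 (d, X')) := by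
      simp only [w, fd]; ring
    rw [this, norm_mul, norm_pow, Complex.norm_real, Real.norm_eq_abs, abs_of_pos hd]
    exact mul_le_mul_of_nonneg_left (B.lw _ hD _ hD' rfl) (by positivity)
  have hK := B.K1
  have h9 : 2 * (d ^ 2 * K) * ‖w (d, X) - w (d, X')‖ ≤ K * d ^ 3 * dst (d, X) (d, X') := by
    have e1 : 2 * (d ^ 2 * K) * ‖w (d, X) - w (d, X')‖ ≤
        2 * (d ^ 2 * K) * (d ^ 2 * (K * dst (d, X) (d, X'))) :=
      mul_le_mul_of_nonneg_left h8 (by positivity)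
    have e2 : 2 * (d ^ 2 * K) * (d ^ 2 * (K * dst (d, X) (d, X'))) =
      2 * (d * K) * (K * d ^ 3 * dst (d, X) (d, X')) := by ring
    have e3 : 0 ≤ K * d ^ 3 * dst (d, X) (d, X') := by
      have := dst_nonneg (d, X) (d, X')
      positivity
    rw [e2] at e1
    nlinarith
  have h10 : K * d ^ 3 * dst (d, X) (d, X') ≤ K * d ^ 3 * (5 * (‖η - η'‖ + |X.2 - X'.2|)) :=
    mul_le_mul_of_nonneg_left hst (by positivity)
  linarith

lemma T_diff {X X' : ℂ × ℝ} {η η' : ℂ} (h : Rg M d X η) (h' : Rg M d X' η') :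
    |(stp d X).2 - (stp d X').2| ≤
      mu * |X.2 - X'.2| + 10 * K * ‖η - η'‖ + 10 * K * d * |X.2 - X'.2| := by
  have hD := Rg.dm B hd hdK h
  have hD' := Rg.dm B hd hdK h'
  have hdz := dst_le B hd hdK h h'
  have h2 : (((stp d X).2 : ℝ) : ℂ) = T1 (d, X) := ofReal_re_of_conj (conj_T1 _)
  have h2' : (((stp d X').2 : ℝ) : ℂ) = T1 (d, X') := ofReal_re_of_conj (conj_T1 _)
  have h3 : ‖T1 (d, X) - T1 (d, X')‖ = |(stp d X).2 - (stp d X').2| := by
    rw [← h2, ← h2', ← Complex.ofReal_sub, Complex.norm_real, Real.norm_eq_abs]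
  rw [← h3, T1_eq, T1_eq]
  have h4 : (mu : ℂ) * fT (d, X) + R60 (d, X) + fd (d, X) * R61 (d, X) -
      (mu * fT (d, X') + R60 (d, X') + fd (d, X') * R61 (d, X')) =
      ((mu * (X.2 - X'.2) : ℝ) : ℂ) + (R60 (d, X) - R60 (d, X')) +
      fd (d, X) * (R61 (d, X) - R61 (d, X')) := by
    simp only [fT, fd]; push_cast; ring
  rw [h4]
  refine (norm_add₃_le).trans ?_
  have e1 : ‖((mu * (X.2 - X'.2) : ℝ) : ℂ)‖ = mu * |X.2 - X'.2| := by
    rw [Complex.norm_real, Real.norm_eq_abs, abs_mul, abs_of_pos mu_pos]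
  have e2 : ‖R60 (d, X) - R60 (d, X')‖ ≤ K * ‖X.1 - X'.1‖ := B.l60 _ hD.1 _ hD'.1 rfl
  have e3 : ‖fd (d, X) * (R61 (d, X) - R61 (d, X'))‖ ≤
      d * (K * (‖X.1 - X'.1‖ + |X.2 - X'.2|)) := by
    rw [norm_mul, norm_fd B hd hdK]
    exact mul_le_mul_of_nonneg_left (B.l61 _ hD _ hD' rfl) hd.le
  rw [e1]
  have hK := B.K1
  have hd1 := d_le B hd hdK
  have e4 : K * ‖X.1 - X'.1‖ ≤ K * (5 * ‖η - η'‖) :=
    mul_le_mul_of_nonneg_left hdz (by linarith)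
  have e5 : d * (K * ‖X.1 - X'.1‖) ≤ d * (K * (5 * ‖η - η'‖)) :=
    mul_le_mul_of_nonneg_left e4 hd.le
  have e6 : d * (K * (5 * ‖η - η'‖)) ≤ K * (5 * ‖η - η'‖) := by
    have : 0 ≤ K * (5 * ‖η - η'‖) := by positivity
    nlinarith
  have e7 : 0 ≤ K * d * |X.2 - X'.2| := by positivity
  nlinarith

end

end

end Pool.Agent.H50.NS
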