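import Pool.Agent.H50.NS.Dyn

/-!
Continuity of the rotation number and the final contradiction.
-/

namespace Pool.Agent.H50.NS

noncomputable section

open Complex Filter Topology Set

/-- the base point -/
def X0 : ℂ × ℝ := (((√rr : ℝ) : ℂ), 0)

lemma sqrt_rr : 2 < √rr ∧ √rr < 3 := by
  constructor
  · rw [Real.lt_sqrt (by norm_num)]; have := rr_gt; linarith
  · rw [Real.sqrt_lt' (by norm_num)]; have := rr_lt; linarith

section

variable {M K d : ℝ} (B : Bds M K)

include B

lemma Rg.base (hd : 0 < d) (hdK : d * K ≤ 1 / 100) :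
    Rg M d X0 (Complex.log (zet (d, X0))) := by
  have hs := sqrt_rr
  have hn : ‖X0.1‖ = √rr := by
    simp only [X0, Complex.norm_real, Real.norm_eq_abs]
    exact abs_of_nonneg (Real.sqrt_nonneg _)
  have hbx : ((d, X0) : Pt) ∈ Bx M := by
    refine ⟨hd, ?_, ?_, ?_⟩
    · have := d_le B hd hdK
      show d ≤ 1
      linarith
    · show ‖X0.1‖ ≤ 4
      rw [hn]; linarith
    · show |X0.2| ≤ M
      simp only [X0, abs_zero]
      exact B.M0
  have h1 : ‖zet (d, X0) - X0.1‖ ≤ 1 / 100 := by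
    have : zet (d, X0) - X0.1 = fd (d, X0) * G (d, X0) := by
      simp only [zet, fZ]; ring
    rw [this, norm_mul, norm_fd B hd hdK]
    have := B.g _ hbx
    nlinarith
  have h2 : |‖zet (d, X0)‖ - √rr| ≤ 1 / 100 := by
    rw [← hn]
    exact (abs_norm_sub_norm_le _ _).trans h1
  have h3 := abs_le.mp h2
  have hpos : 0 < ‖zet (d, X0)‖ := by linarith
  have hne : zet (d, X0) ≠ 0 := norm_pos_iff.mp hpos
  refine ⟨by rw [hn]; linarith, by simp only [X0, abs_zero]; exact B.M0,
    Complex.exp_log hne, ?_⟩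
  rw [Complex.log_re]
  have hrho : rho = Real.log (√rr) := by
    rw [rho, Real.log_sqrt (by have := rr_gt; linarith)]
  have hsp : 0 < √rr := by linarith
  rw [hrho, abs_le]
  constructor
  · have h4 := Real.log_le_sub_one_of_pos (show 0 < √rr / ‖zet (d, X0)‖ by positivity)
    rw [Real.log_div hsp.ne' hpos.ne'] at h4
    have h5 : √rr / ‖zet (d, X0)‖ - 1 ≤ 1 / 20 := by
      rw [sub_le_iff_le_add, div_le_iff₀ hpos]
      linarith
    linarith
  · have h4 := Real.log_le_sub_one_of_pos (show 0 < ‖zet (d, X0)‖ / √rr by positivity)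
    rw [Real.log_div hpos.ne' hsp.ne'] at h4
    have h5 : ‖zet (d, X0)‖ / √rr - 1 ≤ 1 / 20 := by
      rw [sub_le_iff_le_add, div_le_iff₀ hsp]
      linarith
    linarith

lemma cont_stp : ContinuousOn (fun p : Pt => stp p.1 p.2) (Dm M) :=
  ((bZ1 B.M0).cont).prodMk (Complex.continuous_re.comp_continuousOn (bT1 B.M0).cont)

lemma small_of {d0 : ℝ} (hd0K : d0 * K ^ 2 ≤ 1 / 10000) {d : ℝ} (h : d ∈ Ioc 0 d0) :
    d * K ^ 2 ≤ 1 / 10000 := by
  have h1 : d * K ^ 2 ≤ d0 * K ^ 2 := mul_le_mul_of_nonneg_right h.2 (by positivity)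
  linarith

lemma orb_dm {d0 : ℝ} (hd0K : d0 * K ^ 2 ≤ 1 / 10000) {d : ℝ} (h : d ∈ Ioc 0 d0) (n : ℕ) :
    ((d, orb d X0 n) : Pt) ∈ Dm M := by
  have h1 := small_of B hd0K h
  have h2 := hdK1 B h.1 h1
  exact Rg.dm B h.1 h2 (Rg.orb B h.1 h1 (Rg.base B h.1 h2) n)

lemma cont_orb {d0 : ℝ} (hd0K : d0 * K ^ 2 ≤ 1 / 10000) (n : ℕ) :
    ContinuousOn (fun d => orb d X0 n) (Ioc 0 d0) := by
  induction n with
  | zero => simpa [orb] using continuousOn_const
  | succ n ih =>
    have h1 : ContinuousOn (fun d : ℝ => ((d, orb d X0 n) : Pt)) (Ioc 0 d0) :=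
      continuousOn_id.prodMk ih
    have h2 := (cont_stp B).comp h1 (fun d hd => orb_dm B hd0K hd n)
    refine h2.congr (fun d _ => ?_)
    simp only [orb_succ, Function.comp]

lemma cont_Lg {d0 : ℝ} (hd0K : d0 * K ^ 2 ≤ 1 / 10000) (n : ℕ) :
    ContinuousOn (fun d => (Lg d (orb d X0 n)).im) (Ioc 0 d0) := by
  have h1 : ContinuousOn (fun d : ℝ => ((d, orb d X0 n) : Pt)) (Ioc 0 d0) :=
    continuousOn_id.prodMk (cont_orb B hd0K n)
  have h2 : ContinuousOn (fun d : ℝ => 1 + w (d, orb d X0 n)) (Ioc 0 d0) :=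
    continuousOn_const.add (((bw B.M0).cont).comp h1 (fun d hd => orb_dm B hd0K hd n))
  refine Complex.continuous_im.comp_continuousOn (h2.clog (fun d hd => ?_))
  have h3 := small_of B hd0K hd
  have h4 := w_half B hd.1 (hdK1 B hd.1 h3) (orb_dm B hd0K hd n)
  left
  have := (abs_le.mp ((Complex.abs_re_le_norm _).trans h4)).1
  simp only [Complex.add_re, Complex.one_re]
  linarith

lemma cont_Th {d0 : ℝ} (hd0K : d0 * K ^ 2 ≤ 1 / 10000) (n : ℕ) :
    ContinuousOn (fun d => Th d X0 n) (Ioc 0 d0) := by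
  induction n with
  | zero => simpa [Th] using continuousOn_const
  | succ n ih =>
    have := ih.add (cont_Lg B hd0K n)
    refine this.congr (fun d _ => ?_)
    simp only [Th_succ]
    rfl

lemma exists_cont_rot {d0 : ℝ} (hd0K : d0 * K ^ 2 ≤ 1 / 10000) :
    ∃ R : ℝ → ℝ, ContinuousOn R (Ioc 0 d0) ∧ ∀ d ∈ Ioc 0 d0,
      0.1 * d ^ 2 ≤ R d ∧ R d ≤ 0.25 * d ^ 2 ∧
        ∀ n : ℕ, |Th d X0 n - n * R d| ≤ 1 + 2 * M + 2 * Real.pi := by
  have key : ∀ d : ℝ, ∃ R : ℝ, d ∈ Ioc 0 d0 → 0.1 * d ^ 2 ≤ R ∧ R ≤ 0.25 * d ^ 2 ∧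
      ∀ n : ℕ, |Th d X0 n - n * R| ≤ 1 + 2 * M + 2 * Real.pi := by
    intro d
    by_cases h : d ∈ Ioc 0 d0
    · have h1 := small_of B hd0K h
      have h2 := hdK1 B h.1 h1
      obtain ⟨R, h3, h4, h5⟩ := exists_rot B h.1 h1 (Rg.base B h.1 h2)
      exact ⟨R, fun _ => ⟨h3, h4, h5⟩⟩
    · exact ⟨0, fun h' => absurd h' h⟩
  choose R hR using key
  refine ⟨R, ?_, hR⟩
  set b := 1 + 2 * M + 2 * Real.pi with hb
  have hb0 : 0 < b := by
    have := B.M0
    have := Real.pi_pos
    positivity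
  have hu : TendstoUniformlyOn (fun (n : ℕ) (d : ℝ) => Th d X0 n / n) R atTop (Ioc 0 d0) := by
    rw [Metric.tendstoUniformlyOn_iff]
    intro ε hε
    have t := tendsto_const_div_atTop_nhds_zero_nat b
    filter_upwards [t.eventually_lt_const hε, eventually_gt_atTop 0] with n hn hn0 d hd
    have h2 : (0 : ℝ) < n := by exact_mod_cast hn0
    have h3 := (hR d hd).2.2 n
    rw [Real.dist_eq, abs_sub_comm]
    have h4 : Th d X0 n / n - R d = (Th d X0 n - n * R d) / n := by
      field_simp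
    rw [h4, abs_div, abs_of_pos h2]
    calc |Th d X0 n - n * R d| / n ≤ b / n := by gcongr
      _ < ε := hn
  refine hu.continuousOn ?_
  refine (Eventually.of_forall (fun n => ?_)).frequently
  exact (cont_Th B hd0K n).div_const _

end

/-! ### the solution -/

/-- the relative deviations of the solution -/
def bs (d : ℝ) (n : ℕ) : ℝ := (ab (d, orb d X0 n)).re

lemma bs_cast (d : ℝ) (n : ℕ) : ((bs d n : ℝ) : ℂ) = ab (d, orb d X0 n) :=
  ofReal_re_of_conj (conj_ab _)

lemma aa_cast (d : ℝ) (n : ℕ) : aa (d, orb d X0 (n + 1)) = (bs d n : ℝ) := by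
  rw [bs_cast, orb_succ, aa_stp]

lemma ac_cast (d : ℝ) (n : ℕ) : ac (d, orb d X0 n) = (bs d (n + 1) : ℝ) := by
  rw [bs_cast, orb_succ, ab_stp]

lemma Z_cast (d : ℝ) (n : ℕ) : (d : ℂ) * (orb d X0 (n + 1)).1 =
    cE * ((bs d (n + 2) : ℝ) + lam * (bs d (n + 1) : ℝ) + mu * lamb * (bs d n : ℝ)) := by
  have h1 := aa_cast d n
  have h2 := ac_cast d (n + 1)
  have h3 := bs_cast d (n + 1)
  rw [← h1, ← h2, h3]
  set p : Pt := (d, orb d X0 (n + 1)) with hp
  have e4 := id_e4
  have e5 := id_e5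
  have e6 := id_e6
  have hz : (d : ℂ) * (orb d X0 (n + 1)).1 = fd p * fZ p := rfl
  rw [hz]
  simp only [aa, ab, ac, Y]
  linear_combination (-(fd p * fZ p)) * e4 - (fd p * fW p * cE) * e5 -
    (fd p ^ 2 * S p * cE) * e6

section

variable {M K d : ℝ} (B : Bds M K) (hd : 0 < d) (hdK : d * K ^ 2 ≤ 1 / 10000)

include B hd hdK

lemma bs_small (n : ℕ) : |bs d n| ≤ 1 / 100 := by
  have h2 := hdK1 B hd hdK
  have h3 := Rg.bx B hd h2 (Rg.orb B hd hdK (Rg.base B hd h2) n)
  have h4 := den_near B hd h2 h3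
  rw [den_eq, add_sub_cancel_left] at h4
  exact (Complex.abs_re_le_norm _).trans h4

lemma bs_rec (n : ℕ) : bs d (n + 3) * (1 + bs d (n + 1)) =
    mu * (1 + d ^ 2) * (bs d n - bs d (n + 1)) := by
  have h2 := hdK1 B hd hdK
  have h3 := Rg.dm B hd h2 (Rg.orb B hd hdK (Rg.base B hd h2) (n + 1))
  have h4 : den (d, orb d X0 (n + 1)) ≠ 0 := by
    intro h0
    have := h3.2.1
    rw [h0, norm_zero] at this
    norm_num at this
  have h5 := ac_rec d (orb d X0 (n + 1)) h4
  rw [← orb_succ, ac_cast, aa_cast, ← bs_cast] at h5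
  have h6 : fd (d, orb d X0 (n + 1)) = (d : ℂ) := rfl
  rw [h6] at h5
  exact_mod_cast h5

end

lemma om_rat : ∃ j : ℤ, 5 * om = Real.pi * (1 + 2 * j) := by
  have h1 : Complex.exp (5 * (om * I)) = Complex.exp (Real.pi * I) := by
    have : Complex.exp (5 * (om * I)) = Complex.exp (om * I) ^ 5 := by
      rw [← Complex.exp_nat_mul]; norm_num
    rw [this, exp_om, lam_pow_five, Complex.exp_pi_mul_I]
  rw [Complex.exp_eq_exp_iff_exists_int] at h1
  obtain ⟨j, hj⟩ := h1
  refine ⟨j, ?_⟩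
  have h2 : ((5 * om : ℝ) : ℂ) * I = ((Real.pi * (1 + 2 * j) : ℝ) : ℂ) * I := by
    push_cast
    linear_combination hj
  have h3 := mul_right_cancel₀ Complex.I_ne_zero h2
  exact_mod_cast h3

/-- integer sequences with eventually small increments of `2 π m` are eventually constant -/
lemma eventually_const {m : ℕ → ℤ} (h : ∀ᶠ n in atTop, |2 * Real.pi * m (n + 1) -
    2 * Real.pi * m n| ≤ 3) : ∃ c : ℤ, ∀ᶠ n in atTop, m n = c := by
  obtain ⟨N, hN⟩ := eventually_atTop.mp h
  refine ⟨m N, eventually_atTop.mpr ⟨N, fun n hn => ?_⟩⟩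
  induction n, hn using Nat.le_induction with
  | base => rfl
  | succ n hn ih =>
    rw [← ih]
    have h1 := hN n hn
    have h2 : 2 * Real.pi * m (n + 1) - 2 * Real.pi * m n =
      2 * Real.pi * ((m (n + 1) - m n : ℤ) : ℝ) := by push_cast; ring
    rw [h2, abs_mul, abs_of_pos (by have := Real.pi_pos; positivity)] at h1
    have hpi := Real.pi_gt_three
    by_contra hne
    have h3 : (1 : ℝ) ≤ |((m (n + 1) - m n : ℤ) : ℝ)| := by
      rw [← Int.cast_abs]
      have : 1 ≤ |m (n + 1) - m n| := Int.one_le_abs (sub_ne_zero.mpr hne)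
      exact_mod_cast this
    nlinarith

section

variable {M K d : ℝ} (B : Bds M K) (hd : 0 < d) (hdK : d * K ^ 2 ≤ 1 / 10000)

include B hd hdK

/-- an asymptotically periodic solution has rational rotation number -/
lemma rational_of_periodic {R b : ℝ} (hR : ∀ n : ℕ, |Th d X0 n - n * R| ≤ b)
    {k : ℕ} (hk : 0 < k) (hper : Tendsto (fun n => bs d (n + k) - bs d n) atTop (𝓝 0)) :
    ¬ Irrational (R / (2 * Real.pi)) := by
  have h2 := hdK1 B hd hdK
  set η := Complex.log (zet (d, X0)) with hη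
  have hRg : ∀ n, Rg M d (orb d X0 n) (eta d X0 η n) :=
    fun n => Rg.orb B hd hdK (Rg.base B hd h2) n
  -- differences of Z
  have hZ1 : Tendsto (fun n => (orb d X0 (n + 1 + k)).1 - (orb d X0 (n + 1)).1) atTop (𝓝 0) := by
    have t0 : Tendsto (fun n => bs d (n + k) - bs d n) atTop (𝓝 0) := hper
    have t1 := (tendsto_add_atTop_iff_nat 1).mpr hper
    have t2 := (tendsto_add_atTop_iff_nat 2).mpr hper
    have c0 : Tendsto (fun n => ((bs d (n + k) - bs d n : ℝ) : ℂ)) atTop (𝓝 ((0 : ℝ) : ℂ)) :=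
      (Complex.continuous_ofReal.tendsto 0).comp t0
    have c1 : Tendsto (fun n => ((bs d (n + 1 + k) - bs d (n + 1) : ℝ) : ℂ)) atTop
        (𝓝 ((0 : ℝ) : ℂ)) := (Complex.continuous_ofReal.tendsto 0).comp t1
    have c2 : Tendsto (fun n => ((bs d (n + 2 + k) - bs d (n + 2) : ℝ) : ℂ)) atTop
        (𝓝 ((0 : ℝ) : ℂ)) := (Complex.continuous_ofReal.tendsto 0).comp t2
    have t3 := ((c2.add (c1.const_mul lam)).add (c0.const_mul (mu * lamb))).const_mul
      ((d : ℂ)⁻¹ * cE)
    simp only [Complex.ofReal_zero, mul_zero, add_zero] at t3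
    refine t3.congr (fun n => ?_)
    have hdne : (d : ℂ) ≠ 0 := by exact_mod_cast hd.ne'
    have e1 := Z_cast d (n + k)
    have e2 := Z_cast d n
    have a1 : n + k + 1 = n + 1 + k := by ring
    have a2 : n + k + 2 = n + 2 + k := by ring
    rw [a1, a2] at e1
    have e3 : (orb d X0 (n + 1 + k)).1 - (orb d X0 (n + 1)).1 =
      (d : ℂ)⁻¹ * (d * (orb d X0 (n + 1 + k)).1 - d * (orb d X0 (n + 1)).1) := by
      field_simp
    rw [e3, e1, e2]
    push_cast
    ring
  have hZ : Tendsto (fun n => (orb d X0 (n + k)).1 - (orb d X0 n).1) atTop (𝓝 0) := by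
    rw [← tendsto_add_atTop_iff_nat 1]
    exact hZ1
  have hzet : Tendsto (fun n => zet (d, orb d X0 (n + k)) - zet (d, orb d X0 n)) atTop (𝓝 0) := by
    rw [tendsto_zero_iff_norm_tendsto_zero]
    have t1 := (tendsto_zero_iff_norm_tendsto_zero.mp hZ).const_mul 2
    rw [mul_zero] at t1
    refine squeeze_zero (fun n => norm_nonneg _) (fun n => ?_) t1
    have e1 : zet (d, orb d X0 (n + k)) - zet (d, orb d X0 n) =
      ((orb d X0 (n + k)).1 - (orb d X0 n).1) +
        fd (d, orb d X0 n) * (G (d, orb d X0 (n + k)) - G (d, orb d X0 n)) := by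
      simp only [zet, fZ, fd]; ring
    rw [e1]
    refine (norm_add_le _ _).trans ?_
    rw [norm_mul, norm_fd B hd h2]
    have e2 := B.lg _ (Rg.bx B hd h2 (hRg (n + k))) _ (Rg.bx B hd h2 (hRg n)) rfl
    have e3 : d * ‖G (d, orb d X0 (n + k)) - G (d, orb d X0 n)‖ ≤
      d * (K * ‖(orb d X0 (n + k)).1 - (orb d X0 n).1‖) := mul_le_mul_of_nonneg_left e2 hd.le
    have e4 : d * (K * ‖(orb d X0 (n + k)).1 - (orb d X0 n).1‖) ≤
        1 * ‖(orb d X0 (n + k)).1 - (orb d X0 n).1‖ := by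
      rw [← mul_assoc]
      exact mul_le_mul_of_nonneg_right (by linarith) (norm_nonneg _)
    linarith
  -- the lifted differences
  set u : ℕ → ℂ := fun n => eta d X0 η (n + k) - eta d X0 η n with hu
  have hexp : Tendsto (fun n => Complex.exp (u n)) atTop (𝓝 1) := by
    have t1 : Tendsto (fun n => Complex.exp (u n) - 1) atTop (𝓝 0) := by
      rw [tendsto_zero_iff_norm_tendsto_zero]
      have t2 := tendsto_zero_iff_norm_tendsto_zero.mp hzet
      refine squeeze_zero (fun n => norm_nonneg _) (fun n => ?_) t2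
      have e1 : Complex.exp (u n) - 1 =
        (zet (d, orb d X0 (n + k)) - zet (d, orb d X0 n)) / zet (d, orb d X0 n) := by
        rw [← (hRg (n + k)).e, ← (hRg n).e, hu, Complex.exp_sub, sub_div,
          div_self (Complex.exp_ne_zero _)]
      rw [e1, norm_div]
      have e2 := (Rg.norm_zet B hd h2 (hRg n)).1
      rw [div_le_iff₀ (by linarith)]
      have := norm_nonneg (zet (d, orb d X0 (n + k)) - zet (d, orb d X0 n))
      nlinarith
    have t3 := t1.add_const 1
    simpa using t3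
  have hlog : Tendsto (fun n => (Complex.log (Complex.exp (u n))).im) atTop (𝓝 0) := by
    have c1 : ContinuousAt Complex.log 1 := continuousAt_clog (by simp)
    have t1 : Tendsto (fun n => Complex.log (Complex.exp (u n))) atTop (𝓝 (Complex.log 1)) :=
      c1.tendsto.comp hexp
    rw [Complex.log_one] at t1
    have t2 := (Complex.continuous_im.tendsto 0).comp t1
    rw [Complex.zero_im] at t2
    exact t2
  have hm : ∀ n, ∃ m : ℤ, u n = Complex.log (Complex.exp (u n)) + m * (2 * Real.pi * I) := by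
    intro n
    have := Complex.exp_log (Complex.exp_ne_zero (u n))
    exact Complex.exp_eq_exp_iff_exists_int.mp this.symm
  choose m hm using hm
  have hmi : ∀ n, (u n).im = (Complex.log (Complex.exp (u n))).im + 2 * Real.pi * m n := by
    intro n
    have := congrArg Complex.im (hm n)
    rw [Complex.add_im] at this
    rw [this]
    simp
    ring
  have hD : ∀ n, (u n).im = k * om + Th d X0 (n + k) - Th d X0 n := by
    intro n
    simp only [hu, Complex.sub_im, eta_im]
    push_cast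
    ring
  have hstep : ∀ n, |(u (n + 1)).im - (u n).im| ≤ 1 := by
    intro n
    rw [hD, hD]
    have e1 : n + 1 + k = n + k + 1 := by ring
    rw [e1, Th_succ, Th_succ]
    have e2 := Lg_im B hd h2 (hRg (n + k))
    have e3 := Lg_im B hd h2 (hRg n)
    have e4 := hd1 B hd hdK
    rw [abs_le]
    constructor <;> nlinarith
  have hconst : ∃ c : ℤ, ∀ᶠ n in atTop, m n = c := by
    apply eventually_const
    have l1 : ∀ᶠ n in atTop, |(Complex.log (Complex.exp (u n))).im| < 1 := by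
      have := hlog.abs
      rw [abs_zero] at this
      exact this.eventually_lt_const one_pos
    have l2 : ∀ᶠ n in atTop, |(Complex.log (Complex.exp (u (n + 1)))).im| < 1 :=
      (tendsto_add_atTop_nat 1).eventually l1
    filter_upwards [l1, l2] with n h3 h4
    have h5 := hstep n
    rw [hmi, hmi] at h5
    rw [abs_lt] at h3 h4
    rw [abs_le] at h5 ⊢
    constructor <;> linarith
  obtain ⟨c, hc⟩ := hconst
  have hDlim : Tendsto (fun n => (u n).im) atTop (𝓝 (2 * Real.pi * c)) := by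
    have t1 := hlog.add_const (2 * Real.pi * (c : ℝ))
    rw [zero_add] at t1
    refine t1.congr' ?_
    filter_upwards [hc] with n hn
    rw [hmi, hn]
  have hsub : Tendsto (fun j : ℕ => (u (j * k)).im) atTop (𝓝 (2 * Real.pi * c)) := by
    refine hDlim.comp ?_
    exact tendsto_id.atTop_mul_const' hk
  have hces := hsub.cesaro
  have hsum : ∀ N : ℕ, ∑ j ∈ Finset.range N, (u (j * k)).im = N * (k * om) + Th d X0 (N * k) := by
    intro N
    induction N with
    | zero => simp [Th]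
    | succ N ih =>
      rw [Finset.sum_range_succ, ih, hD]
      have : (N + 1) * k = N * k + k := by ring
      rw [this]
      push_cast
      ring
  have hb0 : 0 ≤ b := (abs_nonneg _).trans (hR 0)
  have hlim2 : Tendsto (fun N : ℕ => (N : ℝ)⁻¹ * ∑ j ∈ Finset.range N, (u (j * k)).im) atTop
      (𝓝 (k * om + k * R)) := by
    have t1 : Tendsto (fun N : ℕ => (N : ℝ)⁻¹ * (Th d X0 (N * k) - ((N * k : ℕ) : ℝ) * R)) atTop
        (𝓝 0) := by
      rw [tendsto_zero_iff_abs_tendsto_zero]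
      have t := tendsto_const_div_atTop_nhds_zero_nat b
      refine squeeze_zero (fun n => abs_nonneg _) (fun N => ?_) t
      show |(N : ℝ)⁻¹ * (Th d X0 (N * k) - ((N * k : ℕ) : ℝ) * R)| ≤ b / N
      rw [abs_mul, abs_of_nonneg (by positivity : 0 ≤ ((N : ℝ)⁻¹)), mul_comm, ← div_eq_mul_inv]
      gcongr
      exact hR _
    have t2 := t1.add_const (k * om + k * R)
    rw [zero_add] at t2
    refine t2.congr' ?_
    filter_upwards [eventually_gt_atTop 0] with N hN
    have hN' : (N : ℝ) ≠ 0 := by exact_mod_cast hN.ne'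
    rw [hsum]
    push_cast
    field_simp
    ring
  have heq := tendsto_nhds_unique hces hlim2
  obtain ⟨j, hj⟩ := om_rat
  intro hirr
  apply hirr
  have hkk : (k : ℝ) ≠ 0 := by exact_mod_cast hk.ne'
  have hpi := Real.pi_pos.ne'
  refine ⟨(c : ℚ) / k - (1 + 2 * j) / 10, ?_⟩
  push_cast
  have hom : om = Real.pi * (1 + 2 * j) / 5 := by linarith
  rw [hom] at heq
  field_simp
  field_simp at heq
  linarith

end

/-- For parameters below and arbitrarily near `(√5 - 1) / 2` there is a positive solution which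
is asymptotic to no periodic one. -/
theorem main (ε : ℝ) (hε : 0 < ε) :
    ∃ γ : ℝ, 0 < γ ∧ (√5 - 1) / 2 - ε < γ ∧ γ < (√5 - 1) / 2 ∧ ∃ x : ℕ → ℝ,
      (∀ n, 0 < x n) ∧ (∀ n, x (n + 3) = γ + x n / x (n + 1)) ∧
      ∀ k : ℕ, 0 < k → ¬ Tendsto (fun n => x (n + k) - x n) atTop (𝓝 0) := by
  obtain ⟨M, K, hM, B⟩ := exists_bds
  have hK := B.K1
  -- the size of the parameter
  set d0 : ℝ := min (1 / (10000 * K ^ 2)) (min 1 (ε / 2)) with hd0
  have hd0pos : 0 < d0 := by
    refine lt_min (by positivity) (lt_min one_pos (by positivity))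
  have hd0K : d0 * K ^ 2 ≤ 1 / 10000 := by
    have h1 : d0 ≤ 1 / (10000 * K ^ 2) := min_le_left _ _
    have h2 : d0 * K ^ 2 ≤ 1 / (10000 * K ^ 2) * K ^ 2 :=
      mul_le_mul_of_nonneg_right h1 (by positivity)
    have h3 : 1 / (10000 * K ^ 2) * K ^ 2 = 1 / 10000 := by field_simp
    linarith
  have hd01 : d0 ≤ 1 := (min_le_right _ _).trans (min_le_left _ _)
  have hd0ε : d0 ≤ ε / 2 := (min_le_right _ _).trans (min_le_right _ _)
  obtain ⟨R, hRc, hR⟩ := exists_cont_rot B hd0K
  have hpi := Real.pi_pos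
  -- an irrational value of the rotation number
  have hlt : 0.07 * d0 ^ 2 / (2 * Real.pi) < 0.09 * d0 ^ 2 / (2 * Real.pi) := by
    apply div_lt_div_of_pos_right _ (by positivity)
    have : 0 < d0 ^ 2 := by positivity
    linarith
  obtain ⟨q, hq, hq1, hq2⟩ := exists_irrational_btwn hlt
  rw [div_lt_iff₀ (by positivity)] at hq1
  rw [lt_div_iff₀ (by positivity)] at hq2
  have hsub : Icc (d0 / 2) d0 ⊆ Ioc 0 d0 := fun x hx => ⟨by linarith [hx.1], hx.2⟩
  have hivt := intermediate_value_Icc (by linarith : d0 / 2 ≤ d0) (hRc.mono hsub)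
  have hmem : q * (2 * Real.pi) ∈ Icc (R (d0 / 2)) (R d0) := by
    have h1 := hR (d0 / 2) ⟨by linarith, by linarith⟩
    have h2 := hR d0 ⟨hd0pos, le_rfl⟩
    have h3 : 0 < d0 ^ 2 := by positivity
    constructor
    · have := h1.2.1
      nlinarith
    · have := h2.1
      nlinarith
  obtain ⟨d, hdI, hdR⟩ := hivt hmem
  have hd : 0 < d := (hsub hdI).1
  have hdK : d * K ^ 2 ≤ 1 / 10000 := small_of B hd0K (hsub hdI)
  have hirr : Irrational (R d / (2 * Real.pi)) := by
    rw [hdR, mul_div_assoc, div_self (by positivity), mul_one]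
    exact hq
  have hbnd := (hR d (hsub hdI)).2.2
  -- the parameter
  have hmu : (√5 - 1) / 2 = mu := rfl
  have hm1 := mu_gt
  have hm2 := mu_lt
  have hm3 := mu_sq
  have hd1 : d ≤ 1 / 10000 := hd1 B hd hdK
  have hg0 : 0 < mu * (1 + d ^ 2) := by positivity
  have hdd : d ^ 2 ≤ 1 / 10000 := by nlinarith
  have hγ : (1 / (mu * (1 + d ^ 2)) - 1) + 1 = 1 / (mu * (1 + d ^ 2)) := by ring
  set γ := 1 / (mu * (1 + d ^ 2)) - 1 with hγdef
  have hγg : (1 + γ) * (mu * (1 + d ^ 2)) = 1 := by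
    rw [hγdef]; field_simp; ring
  have hγ0 : 0 < γ := by
    rw [hγdef, sub_pos, lt_div_iff₀ hg0]
    nlinarith
  have hγ1 : 0 < 1 + γ := by linarith
  have hbs := bs_small B hd hdK
  have hb1 : ∀ n, 0 < 1 + bs d n := fun n => by
    have := (abs_le.mp (hbs n)).1
    linarith
  refine ⟨γ, hγ0, ?_, ?_, fun n => (1 + γ) * (1 + bs d n), fun n => mul_pos hγ1 (hb1 n), ?_, ?_⟩
  · rw [hmu, hγdef]
    have : mu - ε + 1 < 1 / (mu * (1 + d ^ 2)) := by
      rw [lt_div_iff₀ hg0]
      have h1 : d ≤ ε / 2 := hdI.2.trans hd0ε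
      have h2 : d ^ 2 ≤ ε / 2 := by nlinarith
      have h3 : (mu - ε + 1) * (mu * (1 + d ^ 2)) = (1 - ε * mu) * (1 + d ^ 2) := by
        linear_combination (1 + d ^ 2) * hm3
      rw [h3]
      nlinarith
    linarith
  · rw [hmu, hγdef]
    have : 1 / (mu * (1 + d ^ 2)) < mu + 1 := by
      rw [div_lt_iff₀ hg0]
      have h3 : (mu + 1) * (mu * (1 + d ^ 2)) = 1 + d ^ 2 := by
        linear_combination (1 + d ^ 2) * hm3
      rw [h3]
      have : 0 < d ^ 2 := by positivity
      linarith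
    linarith
  · intro n
    have h1 := bs_rec B hd hdK n
    have h2 := (hb1 (n + 1)).ne'
    have h3 := hγ1.ne'
    show (1 + γ) * (1 + bs d (n + 3)) = γ + (1 + γ) * (1 + bs d n) / ((1 + γ) * (1 + bs d (n + 1)))
    rw [mul_div_mul_left _ _ h3]
    rw [← sub_eq_iff_eq_add', eq_div_iff h2]
    have h4 : (1 + γ) * (bs d (n + 3) * (1 + bs d (n + 1))) = bs d n - bs d (n + 1) := by
      rw [h1]
      linear_combination (bs d n - bs d (n + 1)) * hγg
    linear_combination h4
  · intro k hk ht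
    refine rational_of_periodic B hd hdK hbnd hk ?_ hirr
    have t1 := ht.const_mul (1 + γ)⁻¹
    rw [mul_zero] at t1
    refine t1.congr (fun n => ?_)
    have h3 := hγ1.ne'
    field_simp
    ring

end

end Pool.Agent.H50.NS
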