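import Pool.Agent.H50.NS.Alg
import Pool.Agent.H50.NS.BL

/-!
The map in normal form coordinates, its identities and regularity.
-/

namespace Pool.Agent.H50.NS

noncomputable section

set_option linter.unusedSimpArgs false

open Complex

/-- the parameter -/
def fd (p : Pt) : ℂ := (p.1 : ℂ)
/-- the variable `Z` -/
def fZ (p : Pt) : ℂ := p.2.1
/-- its conjugate -/
def fW (p : Pt) : ℂ := (starRingEnd ℂ) p.2.1
/-- the variable `T` -/
def fT (p : Pt) : ℂ := (p.2.2 : ℂ)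

def sgf (Z W : ℂ) : ℂ := s2 * Z ^ 2 + s2b * W ^ 2 + s0 * (Z * W)
def Pcf (Z W : ℂ) : ℂ := p20 * Z ^ 2 + p11 * (Z * W) + p02 * W ^ 2
def Mcf (Z W : ℂ) : ℂ := m30 * Z ^ 3 + m12 * (Z * W ^ 2) + m03 * W ^ 3 + m01 * W

def U (p : Pt) : ℂ := lam * fZ p + lamb * fW p
def Y (p : Pt) : ℂ := lamb * fZ p + lam * fW p
def sg (p : Pt) : ℂ := sgf (fZ p) (fW p)
def S (p : Pt) : ℂ := sg p + fd p * fT p
def Q (p : Pt) : ℂ := -(U p * Y p)
def C0 (p : Pt) : ℂ := U p - (1 + mu) * U p * sg p - mu * sg p * Y p - Q p * Y p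
def L (p : Pt) : ℂ := -((1 + mu) * U p + mu * Y p)
def den (p : Pt) : ℂ := 1 + fd p * Y p + fd p ^ 2 * (1 + mu) * S p
def C (p : Pt) : ℂ := C0 p + fd p * (fT p * L p)
def En (p : Pt) : ℂ := mu * S p - S p ^ 2 - C p * Y p - (1 + mu) * Q p * S p -
  fd p * (1 + mu) * C p * S p
def E (p : Pt) : ℂ := En p / den p
def N2 (p : Pt) : ℂ := C0 p + fd p * (fT p * L p + E p)
def N1 (p : Pt) : ℂ := Q p + fd p * N2 p
def Dsg (p : Pt) : ℂ := 2 * (s2 * (lam * fZ p) * cE + s2b * (lamb * fW p) * cEb) +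
  s0 * (lam * fZ p * cEb + lamb * fW p * cE)
def T1 (p : Pt) : ℂ := mu * fT p + em * N2 p - N1 p * Dsg p - fd p * N1 p ^ 2 * sgf cE cEb
def R60 (p : Pt) : ℂ := em * C0 p - Q p * Dsg p
def R61 (p : Pt) : ℂ := em * (fT p * L p + E p) - N2 p * Dsg p - N1 p ^ 2 * sgf cE cEb
def Z1 (p : Pt) : ℂ := lam * fZ p + fd p * cE * N1 p
def Pc (p : Pt) : ℂ := Pcf (fZ p) (fW p)
def Mc (p : Pt) : ℂ := Mcf (fZ p) (fW p)
def G (p : Pt) : ℂ := Pc p + fd p * Mc p
def zet (p : Pt) : ℂ := fZ p + fd p * G p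
def DPc (p : Pt) : ℂ := 2 * p20 * lam * fZ p * cE + p11 * (lam * fZ p * cEb + lamb * fW p * cE) +
  2 * p02 * lamb * fW p * cEb
def DM (p : Pt) : ℂ :=
  m30 * (3 * (lam * fZ p) ^ 2 * (cE * N1 p) + 3 * fd p * (lam * fZ p) * (cE * N1 p) ^ 2 +
    fd p ^ 2 * (cE * N1 p) ^ 3) +
  m12 * ((cE * N1 p) * (lamb * fW p) ^ 2 + (lam * fZ p + fd p * (cE * N1 p)) *
    (2 * (lamb * fW p) * (cEb * N1 p) + fd p * (cEb * N1 p) ^ 2)) +
  m03 * (3 * (lamb * fW p) ^ 2 * (cEb * N1 p) + 3 * fd p * (lamb * fW p) * (cEb * N1 p) ^ 2 +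
    fd p ^ 2 * (cEb * N1 p) ^ 3) +
  m01 * (cEb * N1 p)
def R3 (p : Pt) : ℂ := cE * (fT p * L p + E p) + N2 p * DPc p + N1 p ^ 2 * Pcf cE cEb + DM p
def Gb (p : Pt) : ℂ := (starRingEnd ℂ) (G p)
def R5 (p : Pt) : ℂ := (lamb * R3 p - G p * (cE + c1 * (fZ p * fW p))) / zet p -
  c1 * (fZ p * Gb p + fW p * G p + fd p * (G p * Gb p))
def w2 (p : Pt) : ℂ := cE + c1 * (zet p * (starRingEnd ℂ) (zet p)) + fd p * R5 p
def w (p : Pt) : ℂ := fd p ^ 2 * w2 p

/-! ### reality -/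

lemma conj_cEb : (starRingEnd ℂ) cEb = cE := by rw [← conj_cE, Complex.conj_conj]
lemma conj_s2b : (starRingEnd ℂ) s2b = s2 := by rw [← conj_s2, Complex.conj_conj]
lemma conj_fZ (p : Pt) : (starRingEnd ℂ) (fZ p) = fW p := rfl
lemma conj_fW (p : Pt) : (starRingEnd ℂ) (fW p) = fZ p := by simp [fW, fZ]
lemma conj_fd (p : Pt) : (starRingEnd ℂ) (fd p) = fd p := by simp [fd]
lemma conj_fT (p : Pt) : (starRingEnd ℂ) (fT p) = fT p := by simp [fT]

lemma conj_U (p : Pt) : (starRingEnd ℂ) (U p) = U p := by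
  simp only [U, map_add, map_mul, conj_lam, conj_lamb, conj_fZ, conj_fW]; ring
lemma conj_Y (p : Pt) : (starRingEnd ℂ) (Y p) = Y p := by
  simp only [Y, map_add, map_mul, conj_lam, conj_lamb, conj_fZ, conj_fW]; ring
lemma conj_sg (p : Pt) : (starRingEnd ℂ) (sg p) = sg p := by
  simp only [sg, sgf, map_add, map_mul, map_pow, conj_s2, conj_s2b, conj_fZ, conj_fW,
    Complex.conj_ofReal]; ring
lemma conj_S (p : Pt) : (starRingEnd ℂ) (S p) = S p := by
  simp only [S, map_add, map_mul, conj_sg, conj_fd, conj_fT]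
lemma conj_Q (p : Pt) : (starRingEnd ℂ) (Q p) = Q p := by
  simp only [Q, map_neg, map_mul, conj_U, conj_Y]
lemma conj_C0 (p : Pt) : (starRingEnd ℂ) (C0 p) = C0 p := by
  simp only [C0, map_add, map_sub, map_mul, map_one, conj_U, conj_Y, conj_sg, conj_Q,
    Complex.conj_ofReal]
lemma conj_L (p : Pt) : (starRingEnd ℂ) (L p) = L p := by
  simp only [L, map_neg, map_add, map_mul, map_one, conj_U, conj_Y, Complex.conj_ofReal]
lemma conj_den (p : Pt) : (starRingEnd ℂ) (den p) = den p := by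
  simp only [den, map_add, map_mul, map_pow, map_one, conj_Y, conj_S, conj_fd,
    Complex.conj_ofReal]
lemma conj_C (p : Pt) : (starRingEnd ℂ) (C p) = C p := by
  simp only [C, map_add, map_mul, conj_C0, conj_fd, conj_fT, conj_L]
lemma conj_E (p : Pt) : (starRingEnd ℂ) (E p) = E p := by
  simp only [E, En, map_div₀, map_sub, map_add, map_mul, map_pow, map_one, conj_S, conj_C, conj_Y,
    conj_Q, conj_fd, conj_den, Complex.conj_ofReal]
lemma conj_N2 (p : Pt) : (starRingEnd ℂ) (N2 p) = N2 p := by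
  simp only [N2, map_add, map_mul, conj_C0, conj_fd, conj_fT, conj_L, conj_E]
lemma conj_N1 (p : Pt) : (starRingEnd ℂ) (N1 p) = N1 p := by
  simp only [N1, map_add, map_mul, conj_Q, conj_fd, conj_N2]
lemma conj_Dsg (p : Pt) : (starRingEnd ℂ) (Dsg p) = Dsg p := by
  simp only [Dsg, map_add, map_mul, conj_s2, conj_s2b, conj_lam, conj_lamb, conj_fZ, conj_fW,
    conj_cE, conj_cEb, Complex.conj_ofReal, map_ofNat]; ring
lemma conj_sgcE : (starRingEnd ℂ) (sgf cE cEb) = sgf cE cEb := by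
  simp only [sgf, map_add, map_mul, map_pow, conj_s2, conj_s2b, conj_cE, conj_cEb,
    Complex.conj_ofReal]; ring
lemma conj_T1 (p : Pt) : (starRingEnd ℂ) (T1 p) = T1 p := by
  simp only [T1, map_add, map_sub, map_mul, map_pow, conj_fT, conj_N2, conj_N1, conj_Dsg, conj_fd,
    conj_sgcE, Complex.conj_ofReal]

lemma ofReal_re_of_conj {z : ℂ} (h : (starRingEnd ℂ) z = z) : ((z.re : ℝ) : ℂ) = z :=
  Complex.conj_eq_iff_re.mp h

/-! ### the step -/

/-- one step of the map on states -/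
def stp (d : ℝ) (X : ℂ × ℝ) : ℂ × ℝ := (Z1 (d, X), (T1 (d, X)).re)

lemma fd_stp (d : ℝ) (X : ℂ × ℝ) : fd (d, stp d X) = fd (d, X) := rfl
lemma fZ_stp (d : ℝ) (X : ℂ × ℝ) :
    fZ (d, stp d X) = lam * fZ (d, X) + fd (d, X) * cE * N1 (d, X) := rfl
lemma fW_stp (d : ℝ) (X : ℂ × ℝ) :
    fW (d, stp d X) = lamb * fW (d, X) + fd (d, X) * cEb * N1 (d, X) := by
  rw [← conj_fZ, fZ_stp]
  simp only [map_add, map_mul, conj_lam, conj_fZ, conj_fd, conj_cE, conj_N1]
lemma fT_stp (d : ℝ) (X : ℂ × ℝ) : fT (d, stp d X) = T1 (d, X) :=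
  ofReal_re_of_conj (conj_T1 _)

lemma T1_eq (p : Pt) : T1 p = mu * fT p + R60 p + fd p * R61 p := by
  simp only [T1, R60, R61, N1, N2]; ring

lemma S_stp (d : ℝ) (X : ℂ × ℝ) : S (d, stp d X) = mu * S (d, X) + em * N1 (d, X) := by
  have h := id_sig (fZ (d, X)) (fW (d, X))
  simp only [S, sg, sgf, fZ_stp, fW_stp, fT_stp, fd_stp, T1]
  have hQ : Q (d, X) = -((lam * fZ (d, X) + lamb * fW (d, X)) *
    (lamb * fZ (d, X) + lam * fW (d, X))) := rfl
  rw [← hQ] at h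
  have hN : N1 (d, X) = Q (d, X) + fd (d, X) * N2 (d, X) := rfl
  have hD : Dsg (d, X) = 2 * (s2 * (lam * fZ (d, X)) * cE + s2b * (lamb * fW (d, X)) * cEb) +
    s0 * (lam * fZ (d, X) * cEb + lamb * fW (d, X) * cE) := rfl
  rw [hD]
  generalize Q (d, X) = q at *
  generalize N2 (d, X) = n2 at *
  generalize fZ (d, X) = z at *
  generalize fW (d, X) = w at *
  generalize fT (d, X) = t at *
  generalize fd (d, X) = e at *
  generalize N1 (d, X) = n1 at *
  subst hN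
  linear_combination h

/-- the basic identity for `N1` -/
lemma N1_den (p : Pt) (h : den p ≠ 0) :
    N1 p * den p = (U p + fd p * mu * S p) * (fd p - Y p - fd p * (1 + mu) * S p) := by
  have hE : E p * den p = En p := by rw [E, div_mul_cancel₀ _ h]
  have hd : den p = 1 + fd p * Y p + fd p ^ 2 * (1 + mu) * S p := rfl
  have hn : En p = mu * S p - S p ^ 2 - C p * Y p - (1 + mu) * Q p * S p -
    fd p * (1 + mu) * C p * S p := rfl
  have hC : C p = C0 p + fd p * (fT p * L p) := rfl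
  have hN : N1 p = Q p + fd p * (C p + fd p * E p) := by
    simp only [N1, N2, C]; ring
  have hC0 : C0 p = U p - (1 + mu) * U p * sg p - mu * sg p * Y p - Q p * Y p := rfl
  have hL : L p = -((1 + mu) * U p + mu * Y p) := rfl
  have hS : sg p = S p - fd p * fT p := by simp only [S]; ring
  have hQ : Q p = -(U p * Y p) := rfl
  have hm := muC
  have e1 : N1 p * den p = Q p * den p + fd p * C p * den p + fd p ^ 2 * (E p * den p) := by
    rw [hN]; ring
  rw [e1, hE, hn, hd, hC, hC0, hL, hS, hQ]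
  linear_combination (S p ^ 2 * fd p ^ 2) * hm

/-- normal form identity, first version -/
lemma zet_stp0 (d : ℝ) (X : ℂ × ℝ) : zet (d, stp d X) = lam * zet (d, X) +
    fd (d, X) ^ 2 * (lam * fZ (d, X) * (cE + c1 * (fZ (d, X) * fW (d, X)))) +
    fd (d, X) ^ 3 * R3 (d, X) := by
  have hP := id_P (fZ (d, X)) (fW (d, X))
  have hM := id_M (fZ (d, X)) (fW (d, X))
  have hC0 : C0 (d, X) = (lam * fZ (d, X) + lamb * fW (d, X)) - (1 + mu) * (lam * fZ (d, X) + lamb * fW (d, X)) * (s2 * fZ (d, X) ^ 2 + s2b * fW (d, X) ^ 2 + s0 * (fZ (d, X) * fW (d, X))) -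
      mu * (s2 * fZ (d, X) ^ 2 + s2b * fW (d, X) ^ 2 + s0 * (fZ (d, X) * fW (d, X))) * (lamb * fZ (d, X) + lam * fW (d, X)) - (-((lam * fZ (d, X) + lamb * fW (d, X)) * (lamb * fZ (d, X) + lam * fW (d, X)))) * (lamb * fZ (d, X) + lam * fW (d, X)) := rfl
  have hQ : Q (d, X) = -((lam * fZ (d, X) + lamb * fW (d, X)) *
    (lamb * fZ (d, X) + lam * fW (d, X))) := rfl
  rw [← hQ] at hC0 hP hM
  rw [← hC0] at hM
  have hN1 : N1 (d, X) = Q (d, X) + fd (d, X) * N2 (d, X) := rfl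
  have hN2 : N2 (d, X) = C0 (d, X) + fd (d, X) * (fT (d, X) * L (d, X) + E (d, X)) := rfl
  simp only [zet, G, Pc, Mc, Pcf, Mcf, fZ_stp, fW_stp, fd_stp, R3, DM, DPc]
  generalize fT (d, X) * L (d, X) + E (d, X) = r at *
  clear hC0 hQ
  generalize C0 (d, X) = c0 at *
  generalize Q (d, X) = q at *
  generalize N2 (d, X) = n2 at *
  generalize fZ (d, X) = z at *
  generalize fW (d, X) = w at *
  generalize fd (d, X) = e at *
  generalize N1 (d, X) = n1 at *
  subst hN1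
  subst hN2
  linear_combination e * hP + e ^ 2 * hM

/-- normal form identity, final version -/
lemma zet_stp (d : ℝ) (X : ℂ × ℝ) (h : zet (d, X) ≠ 0) :
    zet (d, stp d X) = lam * zet (d, X) * (1 + w (d, X)) := by
  rw [zet_stp0]
  have h5 : R5 (d, X) * zet (d, X) =
      (lamb * R3 (d, X) - G (d, X) * (cE + c1 * (fZ (d, X) * fW (d, X)))) -
      c1 * (fZ (d, X) * Gb (d, X) + fW (d, X) * G (d, X) + fd (d, X) * (G (d, X) * Gb (d, X))) *
        zet (d, X) := by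
    simp only [R5]
    rw [sub_mul, div_mul_cancel₀ _ h]
  have hc : (starRingEnd ℂ) (zet (d, X)) = fW (d, X) + fd (d, X) * Gb (d, X) := by
    simp only [zet, map_add, map_mul, conj_fZ, conj_fd, Gb]
  have hw : w (d, X) * zet (d, X) = fd (d, X) ^ 2 *
      ((cE + c1 * (zet (d, X) * (fW (d, X) + fd (d, X) * Gb (d, X)))) * zet (d, X)) +
      fd (d, X) ^ 3 * (R5 (d, X) * zet (d, X)) := by
    simp only [w, w2, hc]; ring
  have hz : zet (d, X) = fZ (d, X) + fd (d, X) * G (d, X) := rfl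
  have e1 : lam * zet (d, X) * (1 + w (d, X)) =
    lam * zet (d, X) + lam * (w (d, X) * zet (d, X)) := by ring
  rw [e1, hw, h5, hz]
  have hl := lam_mul_lamb
  linear_combination (-(fd (d, X) ^ 3 * R3 (d, X))) * hl

/-! ### reconstruction of the solution -/

/-- relative deviation of `x n`, as a complex number -/
def aa (p : Pt) : ℂ := fd p * (lamb ^ 2 * fZ p + lam ^ 2 * fW p) + fd p ^ 2 * ((1 + mu) ^ 2 * S p)
/-- relative deviation of `x (n+1)` -/
def ab (p : Pt) : ℂ := fd p * Y p + fd p ^ 2 * ((1 + mu) * S p)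
/-- relative deviation of `x (n+2)` -/
def ac (p : Pt) : ℂ := fd p * (fZ p + fW p) + fd p ^ 2 * S p

lemma conj_aa (p : Pt) : (starRingEnd ℂ) (aa p) = aa p := by
  simp only [aa, map_add, map_mul, map_pow, map_one, conj_S, conj_fd, conj_lam, conj_lamb,
    conj_fZ, conj_fW, Complex.conj_ofReal]; ring
lemma conj_ab (p : Pt) : (starRingEnd ℂ) (ab p) = ab p := by
  simp only [ab, map_add, map_mul, map_pow, map_one, conj_S, conj_fd, conj_Y,
    Complex.conj_ofReal]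
lemma conj_ac (p : Pt) : (starRingEnd ℂ) (ac p) = ac p := by
  simp only [ac, map_add, map_mul, map_pow, map_one, conj_S, conj_fd,
    conj_fZ, conj_fW]; ring

lemma aa_stp (d : ℝ) (X : ℂ × ℝ) : aa (d, stp d X) = ab (d, X) := by
  have h := id_e3
  have hl := lam_mul_lamb
  have hm := muC
  simp only [aa, ab, Y, S_stp, fZ_stp, fW_stp, fd_stp]
  linear_combination (fd (d, X) ^ 2 * N1 (d, X)) * h +
    (fd (d, X) * (lamb * fZ (d, X) + lam * fW (d, X))) * hl +
    (fd (d, X) ^ 2 * S (d, X) * (mu + 1)) * hm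

lemma ab_stp (d : ℝ) (X : ℂ × ℝ) : ab (d, stp d X) = ac (d, X) := by
  have h := id_e2
  have hl := lam_mul_lamb
  have hm := muC
  simp only [ac, ab, Y, S_stp, fZ_stp, fW_stp, fd_stp]
  linear_combination (fd (d, X) ^ 2 * N1 (d, X)) * h +
    (fd (d, X) * (fZ (d, X) + fW (d, X))) * hl +
    (fd (d, X) ^ 2 * S (d, X)) * hm

lemma ac_stp (d : ℝ) (X : ℂ × ℝ) :
    ac (d, stp d X) = fd (d, X) * (U (d, X) + fd (d, X) * mu * S (d, X)) +
      fd (d, X) ^ 2 * N1 (d, X) := by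
  have h := id_e1
  simp only [ac, U, S_stp, fZ_stp, fW_stp, fd_stp]
  linear_combination (fd (d, X) ^ 2 * N1 (d, X)) * h

lemma den_eq (p : Pt) : den p = 1 + ab p := by simp only [den, ab]; ring

lemma aa_sub_ab (p : Pt) : mu * (aa p - ab p) = fd p * (U p + fd p * mu * S p) := by
  have hl := lam_sq
  have hm := muC
  simp only [aa, ab, U, Y, lamb]
  linear_combination (fd p * (mu * fZ p + mu * fW p)) * hl +
    (fd p * fZ p * (mu + lam) - fd p * fW p * lam + fd p ^ 2 * S p * mu) * hm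

/-- the recurrence for the relative deviations -/
lemma ac_rec (d : ℝ) (X : ℂ × ℝ) (h : den (d, X) ≠ 0) :
    ac (d, stp d X) * (1 + ab (d, X)) =
      mu * (1 + fd (d, X) ^ 2) * (aa (d, X) - ab (d, X)) := by
  have h1 := N1_den (d, X) h
  rw [← den_eq, ac_stp]
  have h2 := aa_sub_ab (d, X)
  have h3 := den_eq (d, X)
  have hd : den (d, X) = 1 + fd (d, X) * Y (d, X) + fd (d, X) ^ 2 * (1 + mu) * S (d, X) := rfl
  have e1 : mu * (1 + fd (d, X) ^ 2) * (aa (d, X) - ab (d, X)) =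
    (1 + fd (d, X) ^ 2) * (mu * (aa (d, X) - ab (d, X))) := by ring
  rw [e1, h2, add_mul]
  have e2 : fd (d, X) ^ 2 * N1 (d, X) * den (d, X) =
    fd (d, X) ^ 2 * (N1 (d, X) * den (d, X)) := by ring
  rw [e2, h1, hd]
  ring

end

end Pool.Agent.H50.NS
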