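import Pool.Agent.H50.NS.Map

/-!
Regularity of the functions of `Map.lean`.
-/

namespace Pool.Agent.H50.NS

noncomputable section

open Complex

variable {M : ℝ}

lemma bd : BL (Bx M) fd := BL.del
lemma bZ : BL (Bx M) fZ := BL.Z
lemma bW : BL (Bx M) fW := BL.W
lemma bT (hM : 0 ≤ M) : BL (Bx M) fT := BL.T hM

/-- constants -/
lemma bc {S : Set Pt} (c : ℂ) : BL S (fun _ => c) := BL.const c

lemma bU : BL (Bx M) U := ((bc lam).mul bZ).add ((bc lamb).mul bW)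
lemma bY : BL (Bx M) Y := ((bc lamb).mul bZ).add ((bc lam).mul bW)
lemma bsg : BL (Bx M) sg :=
  (((bc s2).mul (bZ.pow 2)).add ((bc s2b).mul (bW.pow 2))).add ((bc s0).mul (bZ.mul bW))
lemma bS (hM : 0 ≤ M) : BL (Bx M) S := bsg.add (bd.mul (bT hM))
lemma bQ : BL (Bx M) Q := (bU.mul bY).neg
lemma bC0 : BL (Bx M) C0 :=
  ((bU.sub (((bc (1 + mu)).mul bU).mul bsg)).sub (((bc mu).mul bsg).mul bY)).sub (bQ.mul bY)
lemma bL : BL (Bx M) L := (((bc (1 + mu)).mul bU).add ((bc mu).mul bY)).neg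
lemma bden (hM : 0 ≤ M) : BL (Bx M) den :=
  ((bc 1).add (bd.mul bY)).add (((bd.pow 2).mul (bc (1 + mu))).mul (bS hM))
lemma bC (hM : 0 ≤ M) : BL (Bx M) C := bC0.add (bd.mul ((bT hM).mul bL))
lemma bEn (hM : 0 ≤ M) : BL (Bx M) En :=
  (((((bc mu).mul (bS hM)).sub ((bS hM).pow 2)).sub ((bC hM).mul bY)).sub
    (((bc (1 + mu)).mul bQ).mul (bS hM))).sub (((bd.mul (bc (1 + mu))).mul (bC hM)).mul (bS hM))
lemma bDsg : BL (Bx M) Dsg :=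
  ((bc 2).mul ((((bc s2).mul ((bc lam).mul bZ)).mul (bc cE)).add
    (((bc s2b).mul ((bc lamb).mul bW)).mul (bc cEb)))).add
  ((bc s0).mul ((((bc lam).mul bZ).mul (bc cEb)).add (((bc lamb).mul bW).mul (bc cE))))
lemma bPc : BL (Bx M) Pc :=
  (((bc p20).mul (bZ.pow 2)).add ((bc p11).mul (bZ.mul bW))).add ((bc p02).mul (bW.pow 2))
lemma bMc : BL (Bx M) Mc :=
  ((((bc m30).mul (bZ.pow 3)).add ((bc m12).mul (bZ.mul (bW.pow 2)))).add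
    ((bc m03).mul (bW.pow 3))).add ((bc m01).mul bW)
lemma bG : BL (Bx M) G := bPc.add (bd.mul bMc)
lemma bGb : BL (Bx M) Gb := bG.conj
lemma bzet : BL (Bx M) zet := bZ.add (bd.mul bG)
lemma bDPc : BL (Bx M) DPc :=
  (((((bc (2 * p20)).mul (bc lam)).mul bZ).mul (bc cE)).add
    ((bc p11).mul ((((bc lam).mul bZ).mul (bc cEb)).add (((bc lamb).mul bW).mul (bc cE))))).add
  ((((bc (2 * p02)).mul (bc lamb)).mul bW).mul (bc cEb))
lemma bR60 : BL (Bx M) R60 := ((bc em).mul bC0).sub (bQ.mul bDsg)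

/-- domain on which the denominators are bounded below -/
def Dm (M : ℝ) : Set Pt := {p | p ∈ Bx M ∧ 1 / 2 ≤ ‖den p‖ ∧ 1 / 2 ≤ ‖zet p‖}

lemma Dm_sub : Dm M ⊆ Bx M := fun _ h => h.1

/-- restriction to `Dm` -/
lemma BL.r {f : Pt → ℂ} (h : BL (Bx M) f) : BL (Dm M) f := h.mono Dm_sub

lemma bE (hM : 0 ≤ M) : BL (Dm M) E :=
  (bEn hM).r.div (bden hM).r (c := 1 / 2) (by norm_num) (fun p hp => hp.2.1)
lemma bTLE (hM : 0 ≤ M) : BL (Dm M) (fun p => fT p * L p + E p) :=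
  ((bT hM).mul bL).r.add (bE hM)
lemma bN2 (hM : 0 ≤ M) : BL (Dm M) N2 := bC0.r.add (bd.r.mul (bTLE hM))
lemma bN1 (hM : 0 ≤ M) : BL (Dm M) N1 := bQ.r.add (bd.r.mul (bN2 hM))
lemma bT1 (hM : 0 ≤ M) : BL (Dm M) T1 :=
  ((((bc mu).mul (bT hM).r).add ((bc em).mul (bN2 hM))).sub ((bN1 hM).mul bDsg.r)).sub
    ((bd.r.mul ((bN1 hM).pow 2)).mul (bc (sgf cE cEb)))
lemma bR61 (hM : 0 ≤ M) : BL (Dm M) R61 :=
  (((bc em).mul (bTLE hM)).sub ((bN2 hM).mul bDsg.r)).sub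
    (((bN1 hM).pow 2).mul (bc (sgf cE cEb)))
lemma bZ1 (hM : 0 ≤ M) : BL (Dm M) Z1 :=
  ((bc lam).mul bZ.r).add ((bd.r.mul (bc cE)).mul (bN1 hM))
lemma bDM (hM : 0 ≤ M) : BL (Dm M) DM := by
  have hA : BL (Dm M) (fun p => lam * fZ p) := (bc lam).mul bZ.r
  have hB : BL (Dm M) (fun p => lamb * fW p) := (bc lamb).mul bW.r
  have ha : BL (Dm M) (fun p => cE * N1 p) := (bc cE).mul (bN1 hM)
  have hb : BL (Dm M) (fun p => cEb * N1 p) := (bc cEb).mul (bN1 hM)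
  have h1 : BL (Dm M) (fun p => m30 * (3 * (lam * fZ p) ^ 2 * (cE * N1 p) +
      3 * fd p * (lam * fZ p) * (cE * N1 p) ^ 2 + fd p ^ 2 * (cE * N1 p) ^ 3)) :=
    (bc m30).mul (((((bc 3).mul (hA.pow 2)).mul ha).add
      ((((bc 3).mul bd.r).mul hA).mul (ha.pow 2))).add ((bd.r.pow 2).mul (ha.pow 3)))
  have h3 : BL (Dm M) (fun p => m03 * (3 * (lamb * fW p) ^ 2 * (cEb * N1 p) +
      3 * fd p * (lamb * fW p) * (cEb * N1 p) ^ 2 + fd p ^ 2 * (cEb * N1 p) ^ 3)) :=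
    (bc m03).mul (((((bc 3).mul (hB.pow 2)).mul hb).add
      ((((bc 3).mul bd.r).mul hB).mul (hb.pow 2))).add ((bd.r.pow 2).mul (hb.pow 3)))
  have h2 : BL (Dm M) (fun p => m12 * ((cE * N1 p) * (lamb * fW p) ^ 2 +
      (lam * fZ p + fd p * (cE * N1 p)) *
      (2 * (lamb * fW p) * (cEb * N1 p) + fd p * (cEb * N1 p) ^ 2))) :=
    (bc m12).mul ((ha.mul (hB.pow 2)).add ((hA.add (bd.r.mul ha)).mul
      ((((bc 2).mul hB).mul hb).add (bd.r.mul (hb.pow 2)))))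
  exact ((h1.add h2).add h3).add ((bc m01).mul hb)
lemma bR3 (hM : 0 ≤ M) : BL (Dm M) R3 :=
  ((((bc cE).mul (bTLE hM)).add ((bN2 hM).mul bDPc.r)).add
    (((bN1 hM).pow 2).mul (bc (Pcf cE cEb)))).add (bDM hM)
lemma bR5 (hM : 0 ≤ M) : BL (Dm M) R5 :=
  ((((bc lamb).mul (bR3 hM)).sub (bG.r.mul ((bc cE).add ((bc c1).mul (bZ.r.mul bW.r))))).div
    bzet.r (c := 1 / 2) (by norm_num) (fun p hp => hp.2.2)).sub
  ((bc c1).mul (((bZ.r.mul bGb.r).add (bW.r.mul bG.r)).add (bd.r.mul (bG.r.mul bGb.r))))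
lemma bw2 (hM : 0 ≤ M) : BL (Dm M) w2 :=
  ((bc cE).add ((bc c1).mul (bzet.r.mul bzet.r.conj))).add (bd.r.mul (bR5 hM))
lemma bw (hM : 0 ≤ M) : BL (Dm M) w := (bd.r.pow 2).mul (bw2 hM)

end

end Pool.Agent.H50.NS
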